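import Mathlib

/-!
# MP_d5a1e1_nt: bases of even order `2 k` and sets with few `k`-fold differences (parts)
-/

set_option autoImplicit false

namespace Pool.Agent.Helper12.ET

/-- the `r`-tuples of elements of `F` -/
def P (F : Finset ℕ) (r : ℕ) : Finset (Fin r → ℕ) := Fintype.piFinset (fun _ => F)

/-- the sum of a tuple -/
def sg {r : ℕ} (u : Fin r → ℕ) : ℤ := ∑ i, (u i : ℤ)

/-- the tent of width `N` -/
noncomputable def w (N : ℕ) (m : ℤ) : ℝ := max 0 ((N : ℝ) - |(m : ℝ)|)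

/-- the weighted number of pairs of `r`-fold sums at distance less than `N` -/
noncomputable def W (F : Finset ℕ) (N r : ℕ) : ℝ :=
  ∑ u ∈ P F r, ∑ v ∈ P F r, w N (sg u - sg v)

/-- every integer is in at most `g` ways a difference of two sums of `k` elements of `B` such that
no summand of the first sum is a summand of the second one -/
def FewDiff (g k : ℕ) (B : Set ℕ) : Prop := ∀ d : ℤ,
  {p : (Fin k → ℕ) × (Fin k → ℕ) | (∀ i, p.1 i ∈ B) ∧ (∀ i, p.2 i ∈ B) ∧ (∀ i j, p.1 i ≠ p.2 j) ∧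
    (∑ i, (p.1 i : ℤ)) - ∑ i, (p.2 i : ℤ) = d}.encard ≤ g

/-- `B` is a `B_h`-set: the sums of `h` elements of `B` are different up to the order -/
def IsBh (h : ℕ) (B : Set ℕ) : Prop := ∀ s t : Multiset ℕ, Multiset.card s = h →
  Multiset.card t = h → (∀ x ∈ s, x ∈ B) → (∀ x ∈ t, x ∈ B) → s.sum = t.sum → s = t

/-- the number of elements of `B` in the dyadic interval `[2^j, 2^(j+1))` -/
noncomputable def nb (B : Set ℕ) (j : ℕ) : ℕ := (B ∩ Set.Ico (2 ^ j) (2 ^ (j + 1))).ncard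

/-- CS.  `w N (s - t) = #{x | s ≤ x < s + N, t ≤ x < t + N}`, so the kernel is positive definite:
`W (r+1) = ∑_{u ∈ P r} ∑_{(b, v) ∈ F × P (r+1)} w (σ u - (σ v - b))`, Cauchy-Schwarz, and
`∑ w ((σ v - b) - (σ v' - b')) = W (r+2)` (exchange `b` and `b'`). -/
def S_CS : Prop := ∀ (F : Finset ℕ) (N r : ℕ), W F N (r + 1) ^ 2 ≤ W F N r * W F N (r + 2)

/-- OV.  Pairs `(u, v)` without common entries: at most `g` for each of the differences `d` with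
`|d| < N`, weight at most `N`.  Pairs with `u i = v j`: remove the entries (`Fin.removeNth`). -/
def S_OV : Prop := ∀ (F : Finset ℕ) (N g r : ℕ), FewDiff g (r + 1) (F : Set ℕ) →
  W F N (r + 1) ≤ 2 * g * (N : ℝ) ^ 2 + ((r : ℝ) + 1) ^ 2 * F.card * W F N r

/-- LOW.  With `T y = #{u ∈ P F k | σ u ≤ y < σ u + N}`: `W k = ∑ T ^ 2`, `∑ T = N |F|^k` and `T` is
zero outside of `[0, (k+1) x)`. -/
def S_LOW : Prop := ∀ (F : Finset ℕ) (N k x : ℕ), 1 ≤ k → (∀ a ∈ F, a < x) → N ≤ x →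
  ((N : ℝ) * (F.card : ℝ) ^ k) ^ 2 ≤ ((k : ℝ) + 1) * x * W F N k

/-- SIZE.  OV with `N = 2 k x + 1`: `|F|^(2k) ≤ 4 g N + 2 k² |F|^(2k-1)`. -/
def S_SIZE : Prop := ∀ (g k : ℕ), 1 ≤ k → ∃ C : ℝ, 0 < C ∧ ∀ (F : Finset ℕ) (x : ℕ), 1 ≤ x →
  FewDiff g k (F : Set ℕ) → (∀ a ∈ F, a < x) → (F.card : ℝ) ^ (2 * k) ≤ C * x

/-- UP.  CS gives `W (k-1)^k ≤ N W k^(k-1)`; with OV and SIZE (`x = N²`). -/
def S_UP : Prop := ∀ (g k : ℕ), 1 ≤ k → ∃ C : ℝ, 0 < C ∧ ∀ (F : Finset ℕ) (N : ℕ), 1 ≤ N →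
  FewDiff g k (F : Set ℕ) → (∀ a ∈ F, a < N ^ 2) → W F N k ≤ C * (N : ℝ) ^ 2

/-- DY.  UP for `N = 2^J`, LOW for the dyadic pieces. -/
def S_DY : Prop := ∀ (g k : ℕ), 1 ≤ k → ∃ C : ℝ, 0 < C ∧ ∀ B : Set ℕ, FewDiff g k B → ∀ J : ℕ,
  ∑ j ∈ Finset.Ico J (2 * J), (nb B j : ℝ) ^ (2 * k) / 2 ^ j ≤ C

/-- FIN.  `|A ∩ [0,x)|^(2k) ≥ x - x0` as `A` is a basis, `≤ m^(2k) C x` by SIZE.  So there is `q` such
that every interval of `q` consecutive large `j` contains one with `nb A j ^ (2k) / 2^j ≥ δ`, which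
contradicts DY (`nb A j ≤ ∑ nb (B i) j`, power mean). -/
def S_FIN : Prop := ∀ (k : ℕ) (A : Set ℕ), 1 ≤ k →
  (∃ n0 : ℕ, ∀ n, n0 ≤ n → ∃ u : Fin (2 * k) → ℕ, (∀ i, u i ∈ A) ∧ ∑ i, u i = n) →
  ∀ (m g : ℕ) (B : Fin m → Set ℕ), A ⊆ ⋃ i, B i → ¬ ∀ i, FewDiff g k (B i)

/-- BH.  `∑ u - ∑ v = ∑ u' - ∑ v'` gives `{u} + {v'} = {u'} + {v}` as multisets of `2k` elements; `u`
and `v` have no common entry, so `{u} = {u'}` and `{v} = {v'}`. -/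
def S_BH : Prop := ∀ (k : ℕ) (B : Set ℕ), IsBh (2 * k) B → FewDiff (k.factorial ^ 2) k B

end Pool.Agent.Helper12.ET
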