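import Mathlib
import Pool.Agent.Helper12.ET.Spec

/-!
# MP_d5a1e1_nt, part CS: the Cauchy-Schwarz inequality for the tent kernel
-/

set_option autoImplicit false

namespace Pool.Agent.Helper12.ET.CS

open Finset Pool.Agent.Helper12.ET

/-- the indicator of `[s, s + N)` -/
noncomputable def ind (N : ℕ) (s x : ℤ) : ℝ := if s ≤ x ∧ x < s + N then 1 else 0

lemma sum_ind (N : ℕ) (M s t : ℤ) (hs : |s| ≤ M) (ht : |t| ≤ M) :
    ∑ x ∈ Finset.Ico (-M) (M + N), ind N s x * ind N t x = w N (s - t) := by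
  have h1 : ∀ x ∈ Finset.Ico (-M) (M + N), ind N s x * ind N t x =
      if x ∈ Finset.Ico (max s t) (min s t + N) then (1 : ℝ) else 0 := by
    intro x _
    unfold ind
    by_cases h3 : x ∈ Finset.Ico (max s t) (min s t + N)
    · have h4 := Finset.mem_Ico.1 h3
      rw [if_pos h3, if_pos (by omega), if_pos (by omega), one_mul]
    · rw [if_neg h3]
      have h4 : ¬ (max s t ≤ x ∧ x < min s t + N) := fun h => h3 (Finset.mem_Ico.2 h)
      by_cases h1 : s ≤ x ∧ x < s + N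
      · rw [if_neg (by omega : ¬ (t ≤ x ∧ x < t + N)), mul_zero]
      · rw [if_neg h1, zero_mul]
  rw [Finset.sum_congr rfl h1, Finset.sum_ite_mem]
  have h2 : Finset.Ico (-M) (M + N) ∩ Finset.Ico (max s t) (min s t + N) =
      Finset.Ico (max s t) (min s t + N) := by
    apply Finset.inter_eq_right.2
    intro x hx
    rw [Finset.mem_Ico] at hx ⊢
    have := abs_le.1 hs
    have := abs_le.1 ht
    omega
  rw [h2, Finset.sum_const, Int.card_Ico, nsmul_eq_mul, mul_one]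
  unfold w
  have h3 : ((min s t + N - max s t).toNat : ℝ) = (((min s t + N - max s t).toNat : ℤ) : ℝ) := by
    push_cast; rfl
  rw [h3, Int.toNat_eq_max]
  have h4 : (max (min s t + N - max s t) 0 : ℤ) = max 0 ((N : ℤ) - |s - t|) := by
    rcases le_total s t with h | h
    · rw [abs_of_nonpos (by omega)]; omega
    · rw [abs_of_nonneg (by omega)]; omega
  rw [h4]
  push_cast
  rfl

lemma key {γ δ : Type*} (M : ℤ) (N : ℕ) (C : Finset γ) (D : Finset δ) (U : γ → ℤ) (V : δ → ℤ)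
    (hC : ∀ c ∈ C, |U c| ≤ M) (hD : ∀ d ∈ D, |V d| ≤ M) :
      ∑ c ∈ C, ∑ d ∈ D, w N (U c - V d) =
        ∑ x ∈ Finset.Ico (-M) (M + N), (∑ c ∈ C, ind N (U c) x) * (∑ d ∈ D, ind N (V d) x) := by
    calc ∑ c ∈ C, ∑ d ∈ D, w N (U c - V d)
        = ∑ c ∈ C, ∑ d ∈ D, ∑ x ∈ Finset.Ico (-M) (M + N), ind N (U c) x * ind N (V d) x :=
          Finset.sum_congr rfl fun c hc => Finset.sum_congr rfl fun d hd =>
            (sum_ind N M _ _ (hC c hc) (hD d hd)).symm
      _ = ∑ c ∈ C, ∑ x ∈ Finset.Ico (-M) (M + N), ∑ d ∈ D, ind N (U c) x * ind N (V d) x :=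
          Finset.sum_congr rfl fun c _ => Finset.sum_comm
      _ = ∑ x ∈ Finset.Ico (-M) (M + N), ∑ c ∈ C, ∑ d ∈ D, ind N (U c) x * ind N (V d) x := 
          Finset.sum_comm
      _ = _ := Finset.sum_congr rfl fun x _ => by rw [Finset.sum_mul_sum]

/-- Cauchy-Schwarz for the kernel -/
lemma cs {α β : Type*} (A : Finset α) (B : Finset β) (S : α → ℤ) (T : β → ℤ) (N : ℕ) :
    (∑ a ∈ A, ∑ b ∈ B, w N (S a - T b)) ^ 2 ≤
      (∑ a ∈ A, ∑ a' ∈ A, w N (S a - S a')) * (∑ b ∈ B, ∑ b' ∈ B, w N (T b - T b')) := by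
  set M : ℤ := ∑ a ∈ A, |S a| + ∑ b ∈ B, |T b| with hM
  have hA0 : (0:ℤ) ≤ ∑ a ∈ A, |S a| := Finset.sum_nonneg fun _ _ => abs_nonneg _
  have hB0 : (0:ℤ) ≤ ∑ b ∈ B, |T b| := Finset.sum_nonneg fun _ _ => abs_nonneg _
  have hA : ∀ a ∈ A, |S a| ≤ M := fun a ha => by
    have h : |S a| ≤ ∑ a ∈ A, |S a| :=
      Finset.single_le_sum (f := fun a => |S a|) (fun _ _ => abs_nonneg _) ha
    omega
  have hB : ∀ b ∈ B, |T b| ≤ M := fun b hb => by
    have h : |T b| ≤ ∑ b ∈ B, |T b| :=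
      Finset.single_le_sum (f := fun b => |T b|) (fun _ _ => abs_nonneg _) hb
    omega
  have e1 := key M N A A S S hA hA
  have e2 := key M N B B T T hB hB
  rw [key M N A B S T hA hB, e1, e2]
  have := Finset.sum_mul_sq_le_sq_mul_sq (Finset.Ico (-M) (M + N))
    (fun x => ∑ a ∈ A, ind N (S a) x) (fun x => ∑ b ∈ B, ind N (T b) x)
  simpa only [pow_two] using this

lemma sumP_succ (F : Finset ℕ) (r : ℕ) (f : (Fin (r + 1) → ℕ) → ℝ) :
    ∑ u ∈ P F (r + 1), f u = ∑ p ∈ F ×ˢ P F r, f (Fin.cons p.1 p.2) := by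
  symm
  refine Finset.sum_nbij' (fun p => (Fin.cons p.1 p.2 : Fin (r + 1) → ℕ))
    (fun u => (u 0, Fin.tail u)) ?_ ?_ ?_ ?_ ?_
  · rintro ⟨b, u⟩ h
    rw [Finset.mem_product] at h
    simp only [P, Fintype.mem_piFinset] at h ⊢
    intro i
    refine Fin.cases ?_ (fun j => ?_) i
    · simpa using h.1
    · simpa using h.2 j
  · intro u h
    simp only [P, Fintype.mem_piFinset] at h
    rw [Finset.mem_product]
    refine ⟨h 0, ?_⟩
    simp only [P, Fintype.mem_piFinset]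
    intro i
    exact h i.succ
  · rintro ⟨b, u⟩ _
    simp
  · intro u _
    simp
  · rintro ⟨b, u⟩ _
    rfl

lemma sg_cons {r : ℕ} (b : ℕ) (u : Fin r → ℕ) :
    sg (Fin.cons b u : Fin (r + 1) → ℕ) = b + sg u := by
  simp [sg, Fin.sum_univ_succ]

theorem main : S_CS := by
  intro F N r
  have h1 : W F N (r + 1) =
      ∑ u ∈ P F r, ∑ q ∈ F ×ˢ P F (r + 1), w N (sg u - (sg q.2 - q.1)) := by
    unfold W
    rw [sumP_succ F r (fun u => ∑ v ∈ P F (r + 1), w N (sg u - sg v)), Finset.sum_product_right]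
    refine Finset.sum_congr rfl fun u _ => ?_
    rw [Finset.sum_product]
    refine Finset.sum_congr rfl fun b _ => ?_
    refine Finset.sum_congr rfl fun v _ => ?_
    rw [sg_cons]
    congr 1
    ring
  have h2 : W F N (r + 2) =
      ∑ q ∈ F ×ˢ P F (r + 1), ∑ q' ∈ F ×ˢ P F (r + 1),
        w N ((sg q.2 - q.1) - (sg q'.2 - q'.1)) := by
    unfold W
    rw [sumP_succ F (r + 1) (fun u => ∑ v ∈ P F (r + 2), w N (sg u - sg v))]
    have e : ∀ p ∈ F ×ˢ P F (r + 1), ∑ v ∈ P F (r + 2), w N (sg (Fin.cons p.1 p.2 : Fin (r + 2) → ℕ) - sg v) =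
        ∑ b ∈ F, ∑ v ∈ P F (r + 1), w N (p.1 + sg p.2 - (b + sg v)) := by
      intro p _
      rw [sumP_succ F (r + 1) (fun v => w N (sg (Fin.cons p.1 p.2 : Fin (r + 2) → ℕ) - sg v)),
        Finset.sum_product]
      refine Finset.sum_congr rfl fun b _ => Finset.sum_congr rfl fun v _ => ?_
      rw [sg_cons, sg_cons]
    rw [Finset.sum_congr rfl e, Finset.sum_product, Finset.sum_product]
    have e2 : ∀ c ∈ F, ∀ u ∈ P F (r + 1),
        ∑ q' ∈ F ×ˢ P F (r + 1), w N ((sg u - c) - (sg q'.2 - q'.1)) =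
        ∑ b ∈ F, ∑ v ∈ P F (r + 1), w N ((sg u - c) - (sg v - b)) := by
      intro c _ u _
      rw [Finset.sum_product]
    rw [Finset.sum_congr rfl fun c hc => Finset.sum_congr rfl fun u hu => e2 c hc u hu]
    -- exchange the two first summands
    calc ∑ a ∈ F, ∑ u ∈ P F (r + 1), ∑ b ∈ F, ∑ v ∈ P F (r + 1), w N (a + sg u - (b + sg v))
        = ∑ a ∈ F, ∑ b ∈ F, ∑ u ∈ P F (r + 1), ∑ v ∈ P F (r + 1),
            w N (a + sg u - (b + sg v)) := Finset.sum_congr rfl fun a _ => Finset.sum_comm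
      _ = ∑ b ∈ F, ∑ a ∈ F, ∑ u ∈ P F (r + 1), ∑ v ∈ P F (r + 1),
            w N (a + sg u - (b + sg v)) := Finset.sum_comm
      _ = ∑ b ∈ F, ∑ u ∈ P F (r + 1), ∑ a ∈ F, ∑ v ∈ P F (r + 1),
            w N (a + sg u - (b + sg v)) := Finset.sum_congr rfl fun a _ => Finset.sum_comm
      _ = _ := by
        refine Finset.sum_congr rfl fun b _ => Finset.sum_congr rfl fun u _ =>
          Finset.sum_congr rfl fun a _ => Finset.sum_congr rfl fun v _ => ?_
        congr 1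
        ring
  rw [h1, h2]
  exact cs (P F r) (F ×ˢ P F (r + 1)) sg (fun q => sg q.2 - q.1) N

end Pool.Agent.Helper12.ET.CS
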