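import Mathlib
import Pool.Agent.Helper12.ET.Spec

/-!
# MP_d5a1e1_nt, part DY
-/

set_option autoImplicit false

namespace Pool.Agent.Helper12.ET.DY

open Finset Pool.Agent.Helper12.ET

lemma w_nonneg (N : ℕ) (m : ℤ) : 0 ≤ w N m := le_max_left _ _

lemma fewDiff_mono {g k : ℕ} {B B' : Set ℕ} (h : B' ⊆ B) (hB : FewDiff g k B) :
    FewDiff g k B' := by
  intro d
  refine le_trans (Set.encard_le_encard ?_) (hB d)
  rintro p ⟨h1, h2, h3, h4⟩
  exact ⟨fun i => h (h1 i), fun i => h (h2 i), h3, h4⟩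

lemma W_eq (F : Finset ℕ) (N r : ℕ) :
    W F N r = ∑ p ∈ P F r ×ˢ P F r, w N (sg p.1 - sg p.2) := by
  unfold W
  rw [Finset.sum_product]

theorem main (hUP : S_UP) (hLOW : S_LOW) : S_DY := by
  intro g k hk
  obtain ⟨C, hC, UP⟩ := hUP g k hk
  refine ⟨2 * (k + 1) * C, by positivity, fun B hB J => ?_⟩
  have hfin : (B ∩ Set.Iio ((2 ^ J) ^ 2)).Finite :=
    (Set.finite_Iio _).subset Set.inter_subset_right
  have hfj : ∀ j : ℕ, (B ∩ Set.Ico (2 ^ j) (2 ^ (j + 1))).Finite := fun j =>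
    (Set.finite_Ico _ _).subset Set.inter_subset_right
  have hW := UP hfin.toFinset (2 ^ J) Nat.one_le_two_pow
    (by rw [Set.Finite.coe_toFinset]; exact fewDiff_mono Set.inter_subset_left hB)
    (fun a ha => by
      rw [Set.Finite.mem_toFinset] at ha
      exact ha.2)
  have hsum : ∑ j ∈ Finset.Ico J (2 * J), W (hfj j).toFinset (2 ^ J) k ≤
      W hfin.toFinset (2 ^ J) k := by
    simp only [W_eq]
    rw [← Finset.sum_biUnion (f := fun p : (Fin k → ℕ) × (Fin k → ℕ) => w (2 ^ J) (sg p.1 - sg p.2))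
      (s := Finset.Ico J (2 * J))
      (t := fun j => P (hfj j).toFinset k ×ˢ P (hfj j).toFinset k)]
    · refine Finset.sum_le_sum_of_subset_of_nonneg ?_ fun _ _ _ => w_nonneg _ _
      intro p hp
      rw [Finset.mem_biUnion] at hp
      obtain ⟨j, hj, hp⟩ := hp
      rw [Finset.mem_Ico] at hj
      rw [Finset.mem_product] at hp ⊢
      simp only [P, Fintype.mem_piFinset, Set.Finite.mem_toFinset] at hp ⊢
      have hlt : 2 ^ (j + 1) ≤ (2 ^ J) ^ 2 := by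
        rw [← pow_mul]
        exact Nat.pow_le_pow_right (by norm_num) (by omega)
      exact ⟨fun i => ⟨(hp.1 i).1, lt_of_lt_of_le (hp.1 i).2.2 hlt⟩,
        fun i => ⟨(hp.2 i).1, lt_of_lt_of_le (hp.2 i).2.2 hlt⟩⟩
    · intro j _ j' _ hjj'
      rw [Function.onFun, Finset.disjoint_left]
      intro p hp hp'
      rw [Finset.mem_product] at hp hp'
      simp only [P, Fintype.mem_piFinset, Set.Finite.mem_toFinset] at hp hp'
      have h1 := (hp.1 ⟨0, hk⟩).2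
      have h2 := (hp'.1 ⟨0, hk⟩).2
      rw [Set.mem_Ico] at h1 h2
      rcases Nat.lt_or_gt_of_ne hjj' with h | h
      · have : 2 ^ (j + 1) ≤ 2 ^ j' := Nat.pow_le_pow_right (by norm_num) h
        omega
      · have : 2 ^ (j' + 1) ≤ 2 ^ j := Nat.pow_le_pow_right (by norm_num) h
        omega
  have hlow : ∀ j ∈ Finset.Ico J (2 * J), ((2:ℝ) ^ J) ^ 2 * ((nb B j : ℝ) ^ (2 * k) / 2 ^ j) ≤
      2 * ((k : ℝ) + 1) * W (hfj j).toFinset (2 ^ J) k := by
    intro j hj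
    rw [Finset.mem_Ico] at hj
    have h1 := hLOW (hfj j).toFinset (2 ^ J) k (2 ^ (j + 1)) hk (fun a ha => by
      rw [Set.Finite.mem_toFinset] at ha
      exact ha.2.2) (Nat.pow_le_pow_right (by norm_num) (by omega))
    have h2 : ((hfj j).toFinset.card : ℝ) = (nb B j : ℝ) := by
      unfold nb
      rw [Set.ncard_eq_toFinset_card _ (hfj j)]
    rw [h2] at h1
    push_cast at h1
    rw [← mul_div_assoc, div_le_iff₀ (by positivity)]
    calc ((2:ℝ) ^ J) ^ 2 * (nb B j : ℝ) ^ (2 * k) = (2 ^ J * (nb B j : ℝ) ^ k) ^ 2 := by ring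
      _ ≤ _ := h1
      _ = _ := by ring
  have h3 : ((2:ℝ) ^ J) ^ 2 * ∑ j ∈ Finset.Ico J (2 * J), (nb B j : ℝ) ^ (2 * k) / 2 ^ j ≤
      2 * ((k : ℝ) + 1) * (C * ((2:ℝ) ^ J) ^ 2) := by
    calc ((2:ℝ) ^ J) ^ 2 * ∑ j ∈ Finset.Ico J (2 * J), (nb B j : ℝ) ^ (2 * k) / 2 ^ j
        = ∑ j ∈ Finset.Ico J (2 * J), ((2:ℝ) ^ J) ^ 2 * ((nb B j : ℝ) ^ (2 * k) / 2 ^ j) := by
          rw [Finset.mul_sum]
      _ ≤ ∑ j ∈ Finset.Ico J (2 * J), 2 * ((k : ℝ) + 1) * W (hfj j).toFinset (2 ^ J) k :=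
          Finset.sum_le_sum hlow
      _ = 2 * ((k : ℝ) + 1) * ∑ j ∈ Finset.Ico J (2 * J), W (hfj j).toFinset (2 ^ J) k := by
          rw [Finset.mul_sum]
      _ ≤ 2 * ((k : ℝ) + 1) * (C * ((2:ℝ) ^ J) ^ 2) := by
          refine mul_le_mul_of_nonneg_left (hsum.trans ?_) (by positivity)
          push_cast at hW
          exact hW
  have h4 : (0:ℝ) < ((2:ℝ) ^ J) ^ 2 := by positivity
  refine le_of_mul_le_mul_left ?_ h4
  calc _ ≤ _ := h3
    _ = _ := by ring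

end Pool.Agent.Helper12.ET.DY
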