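import Mathlib

/-!
# MP_d5a1e1_nt: definitions for the density statement
-/

set_option autoImplicit false

namespace Pool.Agent.Helper12.ET.Pop

/-- at most `K` ordered representations of every number as a sum of `h` elements of `A` -/
def RepLe (K h : ℕ) (A : Set ℕ) : Prop := ∀ n : ℕ,
  {u : Fin h → ℕ | (∀ i, u i ∈ A) ∧ ∑ i, u i = n}.encard ≤ K

/-- the integers `d`, `|d| < N`, with more than `g` representations -/
def PopSet (S : Set ℕ) (k g N : ℕ) : Set ℤ := {d : ℤ | |d| < N ∧ (g : ℕ∞) <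
  {p : (Fin k → ℕ) × (Fin k → ℕ) | (∀ i, p.1 i ∈ S) ∧ (∀ i, p.2 i ∈ S) ∧ (∀ i j, p.1 i ≠ p.2 j) ∧
    (∑ i, (p.1 i : ℤ)) - ∑ i, (p.2 i : ℤ) = d}.encard}

end Pool.Agent.Helper12.ET.Pop
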