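import Mathlib
import Pool.Agent.Helper12.ET.Spec

/-!
# MP_d5a1e1_nt: sets with `|A ∩ [0, x)|^(2k) ≥ c x` are not finite unions of sets with few differences
-/

set_option autoImplicit false

namespace Pool.Agent.Helper12.ET.Gen

open Finset Pool.Agent.Helper12.ET

lemma fewDiff_mono {g k : ℕ} {B B' : Set ℕ} (h : B' ⊆ B) (hB : FewDiff g k B) :
    FewDiff g k B' := by
  intro d
  refine le_trans (Set.encard_le_encard ?_) (hB d)
  rintro p ⟨h1, h2, h3, h4⟩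
  exact ⟨fun i => h (h1 i), fun i => h (h2 i), h3, h4⟩

lemma powsum {m : ℕ} (k : ℕ) (hk : 1 ≤ k) (f : Fin m → ℝ) (hf : ∀ i, 0 ≤ f i) :
    (∑ i, f i) ^ (2 * k) ≤ (m : ℝ) ^ (2 * k) * ∑ i, f i ^ (2 * k) := by
  rcases Nat.eq_zero_or_pos m with rfl | hm
  · have : 2 * k ≠ 0 := by omega
    simp [this]
  have h2 := pow_sum_div_card_le_sum_pow (s := Finset.univ) (f := f) (fun i _ => hf i) (2 * k - 1)
  rw [Finset.card_univ, Fintype.card_fin, show 2 * k - 1 + 1 = 2 * k by omega] at h2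
  have hm' : (1 : ℝ) ≤ m := by exact_mod_cast hm
  rw [div_le_iff₀ (by positivity)] at h2
  refine h2.trans ?_
  rw [mul_comm]
  refine mul_le_mul_of_nonneg_right (pow_le_pow_right₀ hm' (by omega)) ?_
  exact Finset.sum_nonneg fun i _ => pow_nonneg (hf i) _

lemma ncard_union_le {m : ℕ} (A : Set ℕ) (B : Fin m → Set ℕ) (hAB : A ⊆ ⋃ i, B i) (S : Set ℕ)
    (hS : S.Finite) : ((A ∩ S).ncard : ℝ) ≤ ∑ i, ((B i ∩ S).ncard : ℝ) := by
  have h1 : A ∩ S ⊆ ⋃ i, (B i ∩ S) := by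
    rw [← Set.iUnion_inter]
    exact Set.inter_subset_inter_left _ hAB
  have h2 : (⋃ i, (B i ∩ S)).Finite := by
    rw [← Set.iUnion_inter]
    exact hS.subset Set.inter_subset_right
  have h3 : (A ∩ S).ncard ≤ (⋃ i, (B i ∩ S)).ncard := Set.ncard_le_ncard h1 h2
  have h4 : (⋃ i, (B i ∩ S)).ncard ≤ ∑ i, (B i ∩ S).ncard := by
    have := Set.ncard_iUnion_le_of_fintype (fun i => B i ∩ S)
    exact this
  exact_mod_cast h3.trans h4

/-- uniform form -/
theorem gen (hSZ : S_SIZE) (hDY : S_DY) (k : ℕ) (hk : 1 ≤ k) (g m : ℕ) (c : ℝ) (hc : 0 < c)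
    (x0 : ℕ) : ∃ X : ℕ, ∀ (A : Set ℕ) (B : Fin m → Set ℕ), A ⊆ ⋃ i, B i →
      (∀ i, FewDiff g k (B i)) →
      ∃ x : ℕ, x0 ≤ x ∧ x ≤ X ∧ ((A ∩ Set.Iio x).ncard : ℝ) ^ (2 * k) < c * x := by
  obtain ⟨C1, hC1, SZ⟩ := hSZ g k hk
  obtain ⟨C2, hC2, DY⟩ := hDY g k hk
  -- the number q
  obtain ⟨q, hq⟩ : ∃ q : ℕ, (2 : ℝ) ^ (2 * k) * ((m : ℝ) ^ (2 * k) * (m * C1)) ≤ c * 2 ^ q := by
    obtain ⟨q, hq⟩ := pow_unbounded_of_one_lt
      ((2 : ℝ) ^ (2 * k) * ((m : ℝ) ^ (2 * k) * (m * C1)) / c) (by norm_num : (1:ℝ) < 2)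
    refine ⟨q, ?_⟩
    rw [div_lt_iff₀ hc] at hq
    linarith
  set δ : ℝ := c / (2 * ((q : ℝ) + 1)) ^ (2 * k) with hδ
  have hδ0 : 0 < δ := by positivity
  obtain ⟨t, ht⟩ := exists_nat_gt ((m : ℝ) ^ (2 * k) * (m * C2) / δ)
  rw [div_lt_iff₀ hδ0] at ht
  set J : ℕ := (t + x0) * (q + 1) with hJdef
  have hJ0 : x0 ≤ J := by rw [hJdef]; nlinarith
  refine ⟨2 ^ (2 * J + (q + 1)), fun A B hAB hB => ?_⟩
  by_contra hcon
  push Not at hcon
  -- the upper bound for the counting function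
  have hup : ∀ x : ℕ, 1 ≤ x → ((A ∩ Set.Iio x).ncard : ℝ) ^ (2 * k) ≤
      (m : ℝ) ^ (2 * k) * (m * (C1 * x)) := by
    intro x hx
    have h1 := ncard_union_le A B hAB (Set.Iio x) (Set.finite_Iio x)
    refine (pow_le_pow_left₀ (by positivity) h1 _).trans ?_
    refine (powsum k hk _ fun i => by positivity).trans ?_
    refine mul_le_mul_of_nonneg_left ?_ (by positivity)
    have h2 : ∀ i : Fin m, ((B i ∩ Set.Iio x).ncard : ℝ) ^ (2 * k) ≤ C1 * x := by
      intro i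
      have hfin : (B i ∩ Set.Iio x).Finite := (Set.finite_Iio x).subset Set.inter_subset_right
      have := SZ hfin.toFinset x hx (by
        rw [Set.Finite.coe_toFinset]
        exact fewDiff_mono Set.inter_subset_left (hB i)) (by
        intro a ha
        rw [Set.Finite.mem_toFinset] at ha
        exact ha.2)
      rwa [← Set.ncard_eq_toFinset_card _ hfin] at this
    calc ∑ i : Fin m, ((B i ∩ Set.Iio x).ncard : ℝ) ^ (2 * k) ≤ ∑ i : Fin m, C1 * x :=
          Finset.sum_le_sum fun i _ => h2 i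
      _ = m * (C1 * x) := by simp
  -- increments
  have hinc : ∀ j q : ℕ, ((A ∩ Set.Iio (2 ^ (j + q))).ncard : ℝ) ≤
      ((A ∩ Set.Iio (2 ^ j)).ncard : ℝ) + ∑ i ∈ Finset.Ico j (j + q), (nb A i : ℝ) := by
    intro j q
    induction q with
    | zero => simp
    | succ q ih =>
      rw [← add_assoc, Finset.sum_Ico_succ_top (by omega)]
      have h1 : A ∩ Set.Iio (2 ^ (j + q + 1)) ⊆
          (A ∩ Set.Iio (2 ^ (j + q))) ∪ (A ∩ Set.Ico (2 ^ (j + q)) (2 ^ (j + q + 1))) := by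
        rintro a ⟨h1, h2⟩
        rw [Set.mem_Iio] at h2
        rcases lt_or_ge a (2 ^ (j + q)) with h | h
        · exact Or.inl ⟨h1, h⟩
        · exact Or.inr ⟨h1, h, h2⟩
      have h2 : (A ∩ Set.Iio (2 ^ (j + q + 1))).ncard ≤ (A ∩ Set.Iio (2 ^ (j + q))).ncard +
          (A ∩ Set.Ico (2 ^ (j + q)) (2 ^ (j + q + 1))).ncard := by
        refine (Set.ncard_le_ncard h1 ?_).trans (Set.ncard_union_le _ _)
        exact ((Set.finite_Iio _).subset Set.inter_subset_right).union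
          ((Set.finite_Ico _ _).subset Set.inter_subset_right)
      have h3 : ((A ∩ Set.Iio (2 ^ (j + q + 1))).ncard : ℝ) ≤
          (A ∩ Set.Iio (2 ^ (j + q))).ncard + (nb A (j + q) : ℝ) := by
        unfold nb
        exact_mod_cast h2
      linarith
  -- one block: some j with a large piece
  have hblock : ∀ j : ℕ, x0 ≤ j → j ≤ 2 * J →
      δ ≤ ∑ i ∈ Finset.Ico j (j + (q + 1)), (nb A i : ℝ) ^ (2 * k) / 2 ^ i := by
    intro j hj hj2
    have h2j : x0 ≤ 2 ^ (j + (q + 1)) := by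
      have : j < 2 ^ j := Nat.lt_two_pow_self
      have : 2 ^ j ≤ 2 ^ (j + (q + 1)) := Nat.pow_le_pow_right (by norm_num) (by omega)
      omega
    have hlow := hcon _ h2j (Nat.pow_le_pow_right (by norm_num) (by omega))
    have hu := hup (2 ^ j) Nat.one_le_two_pow
    set a : ℝ := ((A ∩ Set.Iio (2 ^ (j + (q + 1)))).ncard : ℝ) with ha
    set b : ℝ := ((A ∩ Set.Iio (2 ^ j)).ncard : ℝ) with hb
    have ha0 : 0 ≤ a := by positivity
    have hb0 : 0 ≤ b := by positivity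
    have hab : 2 * b ≤ a := by
      by_contra hcon
      push Not at hcon
      have h1 : a ^ (2 * k) < (2 * b) ^ (2 * k) := pow_lt_pow_left₀ hcon ha0 (by omega)
      rw [mul_pow] at h1
      have h2 : (2:ℝ) ^ (2 * k) * b ^ (2 * k) ≤ c * 2 ^ q * 2 ^ j := by
        calc (2:ℝ) ^ (2 * k) * b ^ (2 * k)
            ≤ (2:ℝ) ^ (2 * k) * ((m : ℝ) ^ (2 * k) * (m * (C1 * ((2 ^ j : ℕ) : ℝ)))) :=
              mul_le_mul_of_nonneg_left hu (by positivity)
          _ = (2:ℝ) ^ (2 * k) * ((m : ℝ) ^ (2 * k) * (m * C1)) * 2 ^ j := by push_cast; ring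
          _ ≤ c * 2 ^ q * 2 ^ j := mul_le_mul_of_nonneg_right hq (by positivity)
      have h3 : c * 2 ^ q * 2 ^ j ≤ c * ((2 ^ (j + (q + 1)) : ℕ) : ℝ) := by
        push_cast
        rw [pow_add, pow_succ]
        have : 0 ≤ c * 2 ^ q * (2:ℝ) ^ j := by positivity
        nlinarith
      linarith
    have hsum : a / 2 ≤ ∑ i ∈ Finset.Ico j (j + (q + 1)), (nb A i : ℝ) := by
      have := hinc j (q + 1)
      linarith
    -- a large term
    obtain ⟨i, hi, hi2⟩ : ∃ i ∈ Finset.Ico j (j + (q + 1)), a / 2 / ((q : ℝ) + 1) ≤ (nb A i : ℝ) := by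
      by_contra hcon
      push Not at hcon
      have h1 : ∑ i ∈ Finset.Ico j (j + (q + 1)), (nb A i : ℝ) <
          ∑ i ∈ Finset.Ico j (j + (q + 1)), a / 2 / ((q : ℝ) + 1) :=
        Finset.sum_lt_sum_of_nonempty ⟨j, by simp⟩ hcon
      rw [Finset.sum_const, Nat.card_Ico, nsmul_eq_mul] at h1
      have h2 : ((j + (q + 1) - j : ℕ) : ℝ) = (q : ℝ) + 1 := by
        rw [Nat.add_sub_cancel_left]; push_cast; ring
      rw [h2, mul_div_cancel₀ _ (by positivity : (q : ℝ) + 1 ≠ 0)] at h1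
      linarith
    have h4 : δ ≤ (nb A i : ℝ) ^ (2 * k) / 2 ^ i := by
      rw [le_div_iff₀ (by positivity)]
      have h5 : (a / 2 / ((q : ℝ) + 1)) ^ (2 * k) ≤ (nb A i : ℝ) ^ (2 * k) :=
        pow_le_pow_left₀ (by positivity) hi2 _
      refine le_trans ?_ h5
      rw [div_div, div_pow, hδ, div_mul_eq_mul_div]
      refine div_le_div_of_nonneg_right ?_ (by positivity)
      refine le_trans ?_ hlow
      refine mul_le_mul_of_nonneg_left ?_ hc.le
      push_cast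
      rw [Finset.mem_Ico] at hi
      exact pow_le_pow_right₀ (by norm_num) (by omega)
    refine h4.trans ?_
    exact Finset.single_le_sum (f := fun i => (nb A i : ℝ) ^ (2 * k) / 2 ^ i)
      (fun i _ => by positivity) hi
  -- many blocks
  have hblocks : ∀ s : ℕ, s ≤ t + x0 →
      s * δ ≤ ∑ i ∈ Finset.Ico J (J + s * (q + 1)), (nb A i : ℝ) ^ (2 * k) / 2 ^ i := by
    intro s hs
    induction s with
    | zero => simp
    | succ t ih =>
      have ih := ih (by omega)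
      have h0 : t * (q + 1) ≤ J := by rw [hJdef]; exact Nat.mul_le_mul_right _ (by omega)
      have h1 := hblock (J + t * (q + 1)) (by omega) (by omega)
      have h2 : J + (t + 1) * (q + 1) = J + t * (q + 1) + (q + 1) := by ring
      rw [h2, ← Finset.sum_Ico_consecutive _ (by omega : J ≤ J + t * (q + 1)) (by omega)]
      push_cast
      linarith
  -- the upper bound
  have hupper : ∀ J : ℕ, ∑ i ∈ Finset.Ico J (2 * J), (nb A i : ℝ) ^ (2 * k) / 2 ^ i ≤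
      (m : ℝ) ^ (2 * k) * (m * C2) := by
    intro J
    have h1 : ∀ i, (nb A i : ℝ) ^ (2 * k) / 2 ^ i ≤
        (m : ℝ) ^ (2 * k) * ∑ l : Fin m, (nb (B l) i : ℝ) ^ (2 * k) / 2 ^ i := by
      intro i
      have h2 : (nb A i : ℝ) ≤ ∑ l : Fin m, (nb (B l) i : ℝ) :=
        ncard_union_le A B hAB _ (Set.finite_Ico _ _)
      rw [← Finset.sum_div, ← mul_div_assoc]
      refine div_le_div_of_nonneg_right ?_ (by positivity)
      refine (pow_le_pow_left₀ (by positivity) h2 _).trans ?_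
      exact powsum k hk _ fun i => by positivity
    calc ∑ i ∈ Finset.Ico J (2 * J), (nb A i : ℝ) ^ (2 * k) / 2 ^ i
        ≤ ∑ i ∈ Finset.Ico J (2 * J),
          (m : ℝ) ^ (2 * k) * ∑ l : Fin m, (nb (B l) i : ℝ) ^ (2 * k) / 2 ^ i :=
          Finset.sum_le_sum fun i _ => h1 i
      _ = (m : ℝ) ^ (2 * k) * ∑ l : Fin m, ∑ i ∈ Finset.Ico J (2 * J),
          (nb (B l) i : ℝ) ^ (2 * k) / 2 ^ i := by
          rw [← Finset.mul_sum, Finset.sum_comm]
      _ ≤ (m : ℝ) ^ (2 * k) * ∑ l : Fin m, C2 :=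
          mul_le_mul_of_nonneg_left (Finset.sum_le_sum fun l _ => DY (B l) (hB l) J)
            (by positivity)
      _ = _ := by simp
  have h1 := hblocks (t + x0) le_rfl
  have h2 := hupper J
  rw [← hJdef, show J + J = 2 * J by ring] at h1
  push_cast at h1
  have h3 : (0:ℝ) ≤ x0 * δ := by positivity
  nlinarith

lemma basis_count (k n0 N : ℕ) (A : Set ℕ)
    (hA : ∀ n, n0 ≤ n → n ≤ N → ∃ u : Fin (2 * k) → ℕ, (∀ i, u i ∈ A) ∧ ∑ i, u i = n)
    (x : ℕ) (hx : 2 * n0 ≤ x) (hxN : x ≤ N) :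
    1 / 2 * (x : ℝ) ≤ ((A ∩ Set.Iio x).ncard : ℝ) ^ (2 * k) := by
  have hfin : (A ∩ Set.Iio x).Finite := (Set.finite_Iio x).subset Set.inter_subset_right
  set F := hfin.toFinset with hF
  have h1 : Finset.Ico n0 x ⊆
      (Fintype.piFinset (fun _ : Fin (2 * k) => F)).image (fun u => ∑ i, u i) := by
    intro n hn
    rw [Finset.mem_Ico] at hn
    obtain ⟨u, hu, hs⟩ := hA n hn.1 (by omega)
    rw [Finset.mem_image]
    refine ⟨u, ?_, hs⟩
    rw [Fintype.mem_piFinset]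
    intro i
    rw [hF, Set.Finite.mem_toFinset]
    refine ⟨hu i, ?_⟩
    have : u i ≤ ∑ i, u i := Finset.single_le_sum (fun _ _ => Nat.zero_le _) (Finset.mem_univ i)
    rw [Set.mem_Iio]
    omega
  have h2 := (Finset.card_le_card h1).trans Finset.card_image_le
  rw [Nat.card_Ico, Fintype.card_piFinset, Finset.prod_const, Finset.card_univ,
    Fintype.card_fin] at h2
  rw [Set.ncard_eq_toFinset_card _ hfin, ← hF]
  have h3 : x ≤ 2 * F.card ^ (2 * k) := by omega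
  have h4 : (x : ℝ) ≤ 2 * (F.card : ℝ) ^ (2 * k) := by exact_mod_cast h3
  linarith

lemma fewDiff_le {g g' k : ℕ} (h : g ≤ g') {B : Set ℕ} (hB : FewDiff g k B) : FewDiff g' k B :=
  fun d => (hB d).trans (by exact_mod_cast h)

/-- uniform form for bases -/
theorem basis (hSZ : S_SIZE) (hDY : S_DY) (k : ℕ) (hk : 1 ≤ k) (g m n0 : ℕ) :
    ∃ N : ℕ, ∀ (A : Set ℕ),
      (∀ n, n0 ≤ n → n ≤ N → ∃ u : Fin (2 * k) → ℕ, (∀ i, u i ∈ A) ∧ ∑ i, u i = n) →
      ∀ B : Fin m → Set ℕ, A ∩ Set.Iic N ⊆ ⋃ i, B i → ∃ i, ¬ FewDiff g k (B i) := by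
  obtain ⟨X, hX⟩ := gen hSZ hDY k hk g m (1 / 2) (by norm_num) (2 * n0)
  refine ⟨X, fun A hA B hAB => ?_⟩
  by_contra hcon
  push Not at hcon
  obtain ⟨x, hx1, hx2, hx3⟩ := hX (A ∩ Set.Iic X) B hAB hcon
  have h1 := basis_count k n0 X A hA x hx1 hx2
  have h2 : A ∩ Set.Iic X ∩ Set.Iio x = A ∩ Set.Iio x := by
    ext a
    simp only [Set.mem_inter_iff, Set.mem_Iic, Set.mem_Iio]
    constructor
    · rintro ⟨⟨h, _⟩, h'⟩; exact ⟨h, h'⟩
    · rintro ⟨h, h'⟩; exact ⟨⟨h, by omega⟩, h'⟩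
  rw [h2] at hx3
  linarith

end Pool.Agent.Helper12.ET.Gen
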