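import Mathlib
import Pool.Agent.Helper12.ET.Gen

/-!
# MP_d5a1e1_nt: two representations infinitely often in one class
-/

set_option autoImplicit false

namespace Pool.Agent.Helper12.ET.Fin6

open Finset Pool.Agent.Helper12.ET

lemma isBh_singleton (h a : ℕ) : IsBh h {a} := by
  intro s t hs ht h1 h2 _
  rw [(Multiset.eq_replicate (a := a) (n := h) (s := s)).2 ⟨hs, fun b hb => h1 b hb⟩,
    (Multiset.eq_replicate (a := a) (n := h) (s := t)).2 ⟨ht, fun b hb => h2 b hb⟩]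

theorem colour (hSZ : S_SIZE) (hDY : S_DY) (k : ℕ) (hk : 1 ≤ k) (A : Set ℕ)
    (hA : ∃ n0 : ℕ, ∀ n, n0 ≤ n → ∃ u : Fin (2 * k) → ℕ, (∀ i, u i ∈ A) ∧ ∑ i, u i = n)
    (m : ℕ) (B : Fin m → Set ℕ) (hAB : A ⊆ ⋃ i, B i) : ∃ i, ∀ g, ¬ FewDiff g k (B i) := by
  by_contra hcon
  push Not at hcon
  choose G hG using hcon
  obtain ⟨n0, hn0⟩ := hA
  obtain ⟨N, hN⟩ := Gen.basis hSZ hDY k hk (∑ i, G i) m n0
  obtain ⟨i, hi⟩ := hN A (fun n hn _ => hn0 n hn) B (Set.inter_subset_left.trans hAB)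
  exact hi (Gen.fewDiff_le (Finset.single_le_sum (fun _ _ => Nat.zero_le _) (Finset.mem_univ i))
    (hG i))

theorem unionBh (hSZ : S_SIZE) (hDY : S_DY) (hBH : S_BH) (k : ℕ) (hk : 1 ≤ k) (m n0 : ℕ) :
    ∃ N : ℕ, ∀ (A : Set ℕ),
      (∀ n, n0 ≤ n → n ≤ N → ∃ u : Fin (2 * k) → ℕ, (∀ i, u i ∈ A) ∧ ∑ i, u i = n) →
      ∀ B : Fin m → Set ℕ, A ∩ Set.Iic N ⊆ ⋃ i, B i → ∃ i, ¬ IsBh (2 * k) (B i) := by
  obtain ⟨N, hN⟩ := Gen.basis hSZ hDY k hk (k.factorial ^ 2) m n0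
  refine ⟨N, fun A hA B hAB => ?_⟩
  obtain ⟨i, hi⟩ := hN A hA B hAB
  exact ⟨i, fun h => hi (hBH k _ h)⟩

theorem infinitely (hSZ : S_SIZE) (hDY : S_DY) (hBH : S_BH) (k : ℕ) (hk : 1 ≤ k) (A : Set ℕ)
    (hA : ∃ n0 : ℕ, ∀ n, n0 ≤ n → ∃ u : Fin (2 * k) → ℕ, (∀ i, u i ∈ A) ∧ ∑ i, u i = n)
    (m : ℕ) (B : Fin m → Set ℕ) (hAB : A ⊆ ⋃ i, B i) :
    ∃ i, ∀ n1 : ℕ, ∃ s t : Multiset ℕ, Multiset.card s = 2 * k ∧ Multiset.card t = 2 * k ∧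
      (∀ x ∈ s, x ∈ B i) ∧ (∀ x ∈ t, x ∈ B i) ∧ s ≠ t ∧ s.sum = t.sum ∧ n1 ≤ s.sum := by
  by_contra hcon
  push Not at hcon
  choose G hG using hcon
  set n1 := ∑ i, G i with hn1
  obtain ⟨n0, hn0⟩ := hA
  obtain ⟨N, hN⟩ := unionBh hSZ hDY hBH k hk (m + n1) n0
  set B' : Fin (m + n1) → Set ℕ :=
    Fin.addCases (fun i => B i ∩ Set.Ici n1) (fun j : Fin n1 => {(j : ℕ)}) with hB'
  have hsub : A ∩ Set.Iic N ⊆ ⋃ i, B' i := by
    rintro a ⟨ha, _⟩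
    rw [Set.mem_iUnion]
    rcases lt_or_ge a n1 with h | h
    · refine ⟨Fin.natAdd m ⟨a, h⟩, ?_⟩
      rw [hB']
      simp only [Fin.addCases_right]
      exact Set.mem_singleton _
    · obtain ⟨i, hi⟩ := Set.mem_iUnion.1 (hAB ha)
      refine ⟨Fin.castAdd n1 i, ?_⟩
      rw [hB']
      simp only [Fin.addCases_left]
      exact ⟨hi, h⟩
  obtain ⟨l, hl⟩ := hN A (fun n hn _ => hn0 n hn) B' hsub
  revert hl
  refine Fin.addCases (fun i => ?_) (fun j => ?_) l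
  · intro hl
    rw [hB'] at hl
    simp only [Fin.addCases_left] at hl
    unfold IsBh at hl
    push Not at hl
    obtain ⟨s, t, hs, ht, h1, h2, h3, h4⟩ := hl
    have h5 := hG i s t hs ht (fun x hx => (h1 x hx).1) (fun x hx => (h2 x hx).1) h4 h3
    have h6 : G i ≤ n1 := Finset.single_le_sum (fun _ _ => Nat.zero_le _) (Finset.mem_univ i)
    have h7 : Multiset.card s • n1 ≤ s.sum := Multiset.card_nsmul_le_sum fun x hx => (h1 x hx).2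
    rw [hs, smul_eq_mul] at h7
    nlinarith
  · intro hl
    rw [hB'] at hl
    simp only [Fin.addCases_right] at hl
    exact hl (isBh_singleton _ _)

end Pool.Agent.Helper12.ET.Fin6
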