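import Mathlib
import Pool.Agent.Helper12.ET.Spec
import Pool.Agent.Helper12.ET.Defs2
import Pool.Agent.Helper12.ET.Gen
import Pool.Agent.Helper12.ET.DY
import Pool.Agent.Helper12.ET.CS
import Pool.Agent.Helper5.ET.OV
import Pool.Agent.Helper68.ET.UP
import Pool.Agent.Helper10.ET.LOW

/-!
# MP_d5a1e1_nt: popular differences have positive density in a counterexample
-/

set_option autoImplicit false

namespace Pool.Agent.Helper12.ET.Pop

open Finset Pool.Agent.Helper12.ET Pool.Agent.Helper5.ET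

lemma split (F : Finset ℕ) (N r : ℕ) : W F N (r + 1) ≤
    (∑ u ∈ P F (r + 1), ∑ v ∈ P F (r + 1), (if ∀ i j, u i ≠ v j then w N (sg u - sg v) else 0)) +
      ((r : ℝ) + 1) ^ 2 * F.card * W F N r := by
  classical
  have h1 : W F N (r + 1) ≤
      ∑ u ∈ P F (r + 1), ∑ v ∈ P F (r + 1),
        ((if ∀ i j, u i ≠ v j then w N (sg u - sg v) else 0) +
          ∑ i : Fin (r + 1), ∑ j : Fin (r + 1),
            (if u i = v j then w N (sg u - sg v) else 0)) := by
    unfold W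
    refine Finset.sum_le_sum fun u _ => Finset.sum_le_sum fun v _ => ?_
    have hw := OV.w_nonneg N (sg u - sg v)
    have h0 : ∀ i j : Fin (r + 1), 0 ≤ (if u i = v j then w N (sg u - sg v) else 0) := by
      intro i j
      split_ifs
      · exact hw
      · exact le_rfl
    by_cases hp : ∀ i j, u i ≠ v j
    · rw [if_pos hp]
      have : 0 ≤ ∑ i : Fin (r + 1), ∑ j : Fin (r + 1),
          (if u i = v j then w N (sg u - sg v) else 0) :=
        Finset.sum_nonneg fun i _ => Finset.sum_nonneg fun j _ => h0 i j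
      linarith
    · rw [if_neg hp, zero_add]
      push Not at hp
      obtain ⟨i, j, hij⟩ := hp
      calc w N (sg u - sg v) = (if u i = v j then w N (sg u - sg v) else 0) := by rw [if_pos hij]
        _ ≤ ∑ j' : Fin (r + 1), (if u i = v j' then w N (sg u - sg v) else 0) :=
          Finset.single_le_sum (f := fun j' => (if u i = v j' then w N (sg u - sg v) else 0))
            (fun j' _ => h0 i j') (Finset.mem_univ j)
        _ ≤ _ := Finset.single_le_sum (f := fun i' => ∑ j' : Fin (r + 1),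
            (if u i' = v j' then w N (sg u - sg v) else 0))
            (fun i' _ => Finset.sum_nonneg fun j' _ => h0 i' j') (Finset.mem_univ i)
  have h2 : ∑ u ∈ P F (r + 1), ∑ v ∈ P F (r + 1),
        ((if ∀ i j, u i ≠ v j then w N (sg u - sg v) else 0) +
          ∑ i : Fin (r + 1), ∑ j : Fin (r + 1),
            (if u i = v j then w N (sg u - sg v) else 0)) =
      (∑ u ∈ P F (r + 1), ∑ v ∈ P F (r + 1),
        (if ∀ i j, u i ≠ v j then w N (sg u - sg v) else 0)) +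
      ∑ i : Fin (r + 1), ∑ j : Fin (r + 1), ∑ u ∈ P F (r + 1), ∑ v ∈ P F (r + 1),
            (if u i = v j then w N (sg u - sg v) else 0) := by
    simp only [Finset.sum_add_distrib]
    congr 1
    calc ∑ u ∈ P F (r + 1), ∑ v ∈ P F (r + 1), ∑ i : Fin (r + 1), ∑ j : Fin (r + 1),
            (if u i = v j then w N (sg u - sg v) else 0)
        = ∑ u ∈ P F (r + 1), ∑ i : Fin (r + 1), ∑ v ∈ P F (r + 1), ∑ j : Fin (r + 1),
            (if u i = v j then w N (sg u - sg v) else 0) :=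
          Finset.sum_congr rfl fun u _ => Finset.sum_comm
      _ = ∑ i : Fin (r + 1), ∑ u ∈ P F (r + 1), ∑ v ∈ P F (r + 1), ∑ j : Fin (r + 1),
            (if u i = v j then w N (sg u - sg v) else 0) := Finset.sum_comm
      _ = ∑ i : Fin (r + 1), ∑ u ∈ P F (r + 1), ∑ j : Fin (r + 1), ∑ v ∈ P F (r + 1),
            (if u i = v j then w N (sg u - sg v) else 0) :=
          Finset.sum_congr rfl fun i _ => Finset.sum_congr rfl fun u _ => Finset.sum_comm
      _ = _ := Finset.sum_congr rfl fun i _ => Finset.sum_comm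
  rw [h2] at h1
  have h4 : ∑ i : Fin (r + 1), ∑ j : Fin (r + 1), ∑ u ∈ P F (r + 1), ∑ v ∈ P F (r + 1),
            (if u i = v j then w N (sg u - sg v) else 0) =
      ((r : ℝ) + 1) ^ 2 * F.card * W F N r := by
    simp only [OV.common, Finset.sum_const, Finset.card_univ, Fintype.card_fin, nsmul_eq_mul]
    push_cast
    ring
  rw [h4] at h1
  linarith

lemma blocks (k : ℕ) (hk : 1 ≤ k) (A : Set ℕ) (c U : ℝ) (hc : 0 < c) (x0 q : ℕ)
    (hq : (2 : ℝ) ^ (2 * k) * U ≤ c * 2 ^ q)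
    (hlo : ∀ x : ℕ, x0 ≤ x → c * x ≤ ((A ∩ Set.Iio x).ncard : ℝ) ^ (2 * k))
    (hup : ∀ x : ℕ, 1 ≤ x → ((A ∩ Set.Iio x).ncard : ℝ) ^ (2 * k) ≤ U * x) (J t : ℕ)
    (hJ0 : x0 ≤ J) :
    t * (c / (2 * ((q : ℝ) + 1)) ^ (2 * k)) ≤
      ∑ i ∈ Finset.Ico J (J + t * (q + 1)), (nb A i : ℝ) ^ (2 * k) / 2 ^ i := by
  set δ : ℝ := c / (2 * ((q : ℝ) + 1)) ^ (2 * k) with hδ
  have hδ0 : 0 < δ := by positivity
  -- increments
  have hinc : ∀ j q : ℕ, ((A ∩ Set.Iio (2 ^ (j + q))).ncard : ℝ) ≤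
      ((A ∩ Set.Iio (2 ^ j)).ncard : ℝ) + ∑ i ∈ Finset.Ico j (j + q), (nb A i : ℝ) := by
    intro j q
    induction q with
    | zero => simp
    | succ q ih =>
      rw [← add_assoc, Finset.sum_Ico_succ_top (by omega)]
      have h1 : A ∩ Set.Iio (2 ^ (j + q + 1)) ⊆
          (A ∩ Set.Iio (2 ^ (j + q))) ∪ (A ∩ Set.Ico (2 ^ (j + q)) (2 ^ (j + q + 1))) := by
        rintro a ⟨h1, h2⟩
        rw [Set.mem_Iio] at h2
        rcases lt_or_ge a (2 ^ (j + q)) with h | h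
        · exact Or.inl ⟨h1, h⟩
        · exact Or.inr ⟨h1, h, h2⟩
      have h2 : (A ∩ Set.Iio (2 ^ (j + q + 1))).ncard ≤ (A ∩ Set.Iio (2 ^ (j + q))).ncard +
          (A ∩ Set.Ico (2 ^ (j + q)) (2 ^ (j + q + 1))).ncard := by
        refine (Set.ncard_le_ncard h1 ?_).trans (Set.ncard_union_le _ _)
        exact ((Set.finite_Iio _).subset Set.inter_subset_right).union
          ((Set.finite_Ico _ _).subset Set.inter_subset_right)
      have h3 : ((A ∩ Set.Iio (2 ^ (j + q + 1))).ncard : ℝ) ≤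
          (A ∩ Set.Iio (2 ^ (j + q))).ncard + (nb A (j + q) : ℝ) := by
        unfold nb
        exact_mod_cast h2
      linarith
  have hblock : ∀ j : ℕ, x0 ≤ j →
      δ ≤ ∑ i ∈ Finset.Ico j (j + (q + 1)), (nb A i : ℝ) ^ (2 * k) / 2 ^ i := by
    intro j hj
    have h2j : x0 ≤ 2 ^ (j + (q + 1)) := by
      have : j < 2 ^ j := Nat.lt_two_pow_self
      have : 2 ^ j ≤ 2 ^ (j + (q + 1)) := Nat.pow_le_pow_right (by norm_num) (by omega)
      omega
    have hlow := hlo _ h2j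
    have hu := hup (2 ^ j) Nat.one_le_two_pow
    set a : ℝ := ((A ∩ Set.Iio (2 ^ (j + (q + 1)))).ncard : ℝ) with ha
    set b : ℝ := ((A ∩ Set.Iio (2 ^ j)).ncard : ℝ) with hb
    have ha0 : 0 ≤ a := by positivity
    have hb0 : 0 ≤ b := by positivity
    have hab : 2 * b ≤ a := by
      by_contra hcon
      push Not at hcon
      have h1 : a ^ (2 * k) < (2 * b) ^ (2 * k) := pow_lt_pow_left₀ hcon ha0 (by omega)
      rw [mul_pow] at h1
      have h2 : (2:ℝ) ^ (2 * k) * b ^ (2 * k) ≤ c * 2 ^ q * 2 ^ j := by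
        calc (2:ℝ) ^ (2 * k) * b ^ (2 * k)
            ≤ (2:ℝ) ^ (2 * k) * (U * ((2 ^ j : ℕ) : ℝ)) :=
              mul_le_mul_of_nonneg_left hu (by positivity)
          _ = (2:ℝ) ^ (2 * k) * U * 2 ^ j := by push_cast; ring
          _ ≤ c * 2 ^ q * 2 ^ j := mul_le_mul_of_nonneg_right hq (by positivity)
      have h3 : c * 2 ^ q * 2 ^ j ≤ c * ((2 ^ (j + (q + 1)) : ℕ) : ℝ) := by
        push_cast
        rw [pow_add, pow_succ]
        have : 0 ≤ c * 2 ^ q * (2:ℝ) ^ j := by positivity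
        nlinarith
      linarith
    have hsum : a / 2 ≤ ∑ i ∈ Finset.Ico j (j + (q + 1)), (nb A i : ℝ) := by
      have := hinc j (q + 1)
      linarith
    -- a large term
    obtain ⟨i, hi, hi2⟩ : ∃ i ∈ Finset.Ico j (j + (q + 1)), a / 2 / ((q : ℝ) + 1) ≤ (nb A i : ℝ) := by
      by_contra hcon
      push Not at hcon
      have h1 : ∑ i ∈ Finset.Ico j (j + (q + 1)), (nb A i : ℝ) <
          ∑ i ∈ Finset.Ico j (j + (q + 1)), a / 2 / ((q : ℝ) + 1) :=
        Finset.sum_lt_sum_of_nonempty ⟨j, by simp⟩ hcon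
      rw [Finset.sum_const, Nat.card_Ico, nsmul_eq_mul] at h1
      have h2 : ((j + (q + 1) - j : ℕ) : ℝ) = (q : ℝ) + 1 := by
        rw [Nat.add_sub_cancel_left]; push_cast; ring
      rw [h2, mul_div_cancel₀ _ (by positivity : (q : ℝ) + 1 ≠ 0)] at h1
      linarith
    have h4 : δ ≤ (nb A i : ℝ) ^ (2 * k) / 2 ^ i := by
      rw [le_div_iff₀ (by positivity)]
      have h5 : (a / 2 / ((q : ℝ) + 1)) ^ (2 * k) ≤ (nb A i : ℝ) ^ (2 * k) :=
        pow_le_pow_left₀ (by positivity) hi2 _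
      refine le_trans ?_ h5
      rw [div_div, div_pow, hδ, div_mul_eq_mul_div]
      refine div_le_div_of_nonneg_right ?_ (by positivity)
      refine le_trans ?_ hlow
      refine mul_le_mul_of_nonneg_left ?_ hc.le
      push_cast
      rw [Finset.mem_Ico] at hi
      exact pow_le_pow_right₀ (by norm_num) (by omega)
    refine h4.trans ?_
    exact Finset.single_le_sum (f := fun i => (nb A i : ℝ) ^ (2 * k) / 2 ^ i)
      (fun i _ => by positivity) hi
  induction t with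
  | zero => simp
  | succ t ih =>
    have h1 := hblock (J + t * (q + 1)) (by omega)
    have h2 : J + (t + 1) * (q + 1) = J + t * (q + 1) + (q + 1) := by ring
    rw [h2, ← Finset.sum_Ico_consecutive _ (by omega : J ≤ J + t * (q + 1)) (by omega)]
    push_cast
    linarith

/-- concatenation -/
def app {k : ℕ} (u v : Fin k → ℕ) : Fin (2 * k) → ℕ := fun i =>
  Fin.append u v (Fin.cast (two_mul k) i)

lemma sum_app {k : ℕ} (u v : Fin k → ℕ) : ∑ i, app u v i = ∑ i, u i + ∑ i, v i := by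
  unfold app
  rw [Fintype.sum_equiv (finCongr (two_mul k)) (fun i => Fin.append u v (Fin.cast (two_mul k) i))
    (fun i => Fin.append u v i) (fun i => rfl), Fin.sum_univ_add]
  simp only [Fin.append_left, Fin.append_right]

lemma app_mem {k : ℕ} {u v : Fin k → ℕ} {A : Set ℕ} (hu : ∀ i, u i ∈ A) (hv : ∀ i, v i ∈ A)
    (i : Fin (2 * k)) : app u v i ∈ A := by
  unfold app
  generalize Fin.cast (two_mul k) i = j
  refine Fin.addCases (fun a => ?_) (fun a => ?_) j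
  · rw [Fin.append_left]; exact hu a
  · rw [Fin.append_right]; exact hv a

lemma app_inj {k : ℕ} {u v u' v' : Fin k → ℕ} (h : app u v = app u' v') : u = u' ∧ v = v' := by
  have h1 : ∀ j : Fin (k + k), Fin.append u v j = Fin.append u' v' j := by
    intro j
    have := congrFun h (Fin.cast (two_mul k).symm j)
    simpa [app] using this
  constructor
  · funext a
    have := h1 (Fin.castAdd k a)
    rwa [Fin.append_left, Fin.append_left] at this
  · funext a
    have := h1 (Fin.natAdd k a)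
    rwa [Fin.append_right, Fin.append_right] at this

lemma sg_eq {r : ℕ} (u : Fin r → ℕ) : sg u = ((∑ i, u i : ℕ) : ℤ) := by
  unfold sg; push_cast; rfl

/-- the pairs with difference `d` -/
def Zd (F : Finset ℕ) (k : ℕ) (d : ℤ) : Finset ((Fin k → ℕ) × (Fin k → ℕ)) :=
  (P F k ×ˢ P F k).filter (fun p => sg p.1 - sg p.2 = d)

/-- the pairs without common entries with difference `d` -/
def Yd (F : Finset ℕ) (k : ℕ) (d : ℤ) : Finset ((Fin k → ℕ) × (Fin k → ℕ)) :=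
  (Zd F k d).filter (fun p => ∀ i j, p.1 i ≠ p.2 j)

lemma l2 {K k : ℕ} {A : Set ℕ} (hK : RepLe K (2 * k) A) (F : Finset ℕ) (hF : (F : Set ℕ) ⊆ A)
    (T : Finset ℤ) : ∑ d ∈ T, (Zd F k d).card ^ 2 ≤ K * F.card ^ (2 * k) := by
  classical
  set Z := P F k ×ˢ P F k with hZ
  set S := (Z ×ˢ Z).filter (fun q => sg q.1.1 - sg q.1.2 = sg q.2.1 - sg q.2.2 ∧
    sg q.1.1 - sg q.1.2 ∈ T) with hS
  have h1 : S.card = ∑ d ∈ T, (Zd F k d).card ^ 2 := by
    rw [Finset.card_eq_sum_card_fiberwise (s := S) (t := T) (f := fun q => sg q.1.1 - sg q.1.2)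
      (fun q hq => (Finset.mem_filter.1 hq).2.2)]
    refine Finset.sum_congr rfl fun d hd => ?_
    rw [pow_two, ← Finset.card_product]
    congr 1
    ext q
    simp only [hS, hZ, Zd, Finset.mem_filter, Finset.mem_product]
    constructor
    · rintro ⟨⟨⟨h1, h2⟩, h3, h4⟩, h5⟩
      exact ⟨⟨h1, h5⟩, ⟨h2, by rw [← h3, h5]⟩⟩
    · rintro ⟨⟨h1, h2⟩, ⟨h3, h4⟩⟩
      exact ⟨⟨⟨h1, h3⟩, by rw [h2, h4], by rw [h2]; exact hd⟩, h2⟩
  rw [← h1]
  have h2 : S.card ≤ K * Z.card := by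
    refine Finset.card_le_mul_card_image_of_maps_to (f := fun q => (q.2.1, q.1.2)) ?_ K ?_
    · intro q hq
      have := Finset.mem_filter.1 hq
      have h3 := Finset.mem_product.1 this.1
      have h4 := Finset.mem_product.1 h3.1
      have h5 := Finset.mem_product.1 h3.2
      exact Finset.mem_product.2 ⟨h5.1, h4.2⟩
    · rintro ⟨b1, b2⟩ _
      have h3 : (((S.filter (fun q => (q.2.1, q.1.2) = (b1, b2)) : Finset _) :
          Set (((Fin k → ℕ) × (Fin k → ℕ)) × ((Fin k → ℕ) × (Fin k → ℕ))))).encard ≤ K := by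
        refine le_trans (Set.encard_le_encard_of_injOn
          (f := fun q => app q.1.1 q.2.2)
          (t := {u : Fin (2 * k) → ℕ | (∀ i, u i ∈ A) ∧ ∑ i, u i = ∑ i, b1 i + ∑ i, b2 i}) ?_ ?_)
          (hK _)
        · intro q hq
          rw [Finset.mem_coe, Finset.mem_filter] at hq
          obtain ⟨hq1, hq2⟩ := hq
          have h4 := Finset.mem_filter.1 hq1
          have h5 := Finset.mem_product.1 h4.1
          have h6 := Finset.mem_product.1 h5.1
          have h7 := Finset.mem_product.1 h5.2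
          simp only [P, Fintype.mem_piFinset] at h6 h7
          refine ⟨app_mem (fun i => hF (h6.1 i)) (fun i => hF (h7.2 i)), ?_⟩
          rw [sum_app]
          have h8 := h4.2.1
          rw [sg_eq, sg_eq, sg_eq, sg_eq] at h8
          have h9 : q.2.1 = b1 := congrArg Prod.fst hq2
          have h10 : q.1.2 = b2 := congrArg Prod.snd hq2
          rw [← h9, ← h10]
          omega
        · intro q hq q' hq' h
          rw [Finset.mem_coe, Finset.mem_filter] at hq hq'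
          obtain ⟨e1, e2⟩ := app_inj h
          have e3 : q.2.1 = q'.2.1 := (congrArg Prod.fst hq.2).trans (congrArg Prod.fst hq'.2).symm
          have e4 : q.1.2 = q'.1.2 := (congrArg Prod.snd hq.2).trans (congrArg Prod.snd hq'.2).symm
          exact Prod.ext (Prod.ext e1 e4) (Prod.ext e3 e2)
      rw [Set.encard_coe_eq_coe_finsetCard] at h3
      exact_mod_cast h3
  refine h2.trans (Nat.mul_le_mul_left _ (le_of_eq ?_))
  rw [hZ, Finset.card_product]
  unfold P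
  rw [Fintype.card_piFinset, Finset.prod_const, Finset.card_univ, Fintype.card_fin]
  ring

lemma sz {K h : ℕ} {A : Set ℕ} (hK : RepLe K h A) (F : Finset ℕ) (hF : (F : Set ℕ) ⊆ A)
    (x : ℕ) (hx : ∀ a ∈ F, a < x) : F.card ^ h ≤ K * (h * x + 1) := by
  classical
  have h1 : (P F h).card = F.card ^ h := by
    unfold P
    rw [Fintype.card_piFinset, Finset.prod_const, Finset.card_univ, Fintype.card_fin]
  rw [← h1, show h * x + 1 = (Finset.range (h * x + 1)).card by simp]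
  refine Finset.card_le_mul_card_image_of_maps_to (f := fun u => ∑ i, u i) ?_ K ?_
  · intro u hu
    simp only [P, Fintype.mem_piFinset] at hu
    rw [Finset.mem_range]
    have : ∑ i : Fin h, u i ≤ ∑ i : Fin h, x := Finset.sum_le_sum fun i _ => (hx _ (hu i)).le
    simp only [Finset.sum_const, Finset.card_univ, Fintype.card_fin, smul_eq_mul] at this
    omega
  · intro n _
    have h3 : ((((P F h).filter (fun u => ∑ i, u i = n) : Finset _) : Set (Fin h → ℕ))).encard ≤ K := by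
      refine le_trans (Set.encard_le_encard ?_) (hK n)
      intro u hu
      rw [Finset.mem_coe, Finset.mem_filter] at hu
      simp only [P, Fintype.mem_piFinset] at hu
      exact ⟨fun i => hF (hu.1 i), hu.2⟩
    rw [Set.encard_coe_eq_coe_finsetCard] at h3
    exact_mod_cast h3

/-- sums of a kernel over pairs -/
lemma sum_le_N (F : Finset ℕ) (N k : ℕ) (Q : (Fin k → ℕ) × (Fin k → ℕ) → Prop) [DecidablePred Q] :
    ∑ p ∈ P F k ×ˢ P F k, (if Q p then w N (sg p.1 - sg p.2) else 0) ≤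
      N * ∑ d ∈ Finset.Ioo (-(N : ℤ)) N, ((((Zd F k d).filter Q).card : ℕ) : ℝ) := by
  classical
  set D : Finset ((Fin k → ℕ) × (Fin k → ℕ)) := (P F k ×ˢ P F k).filter
    (fun p => Q p ∧ |sg p.1 - sg p.2| < (N : ℤ)) with hD
  have h1 : ∑ p ∈ P F k ×ˢ P F k, (if Q p then w N (sg p.1 - sg p.2) else 0) ≤
      ∑ p ∈ D, (N : ℝ) := by
    rw [hD, Finset.sum_filter]
    refine Finset.sum_le_sum fun p _ => ?_
    by_cases hp : Q p
    · by_cases hq : |sg p.1 - sg p.2| < (N : ℤ)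
      · rw [if_pos hp, if_pos ⟨hp, hq⟩]
        exact OV.w_le _ _
      · rw [if_pos hp, if_neg (fun hh => hq hh.2), OV.w_zero (not_lt.1 hq)]
    · rw [if_neg hp, if_neg (fun hh => hp hh.1)]
  refine h1.trans ?_
  rw [Finset.sum_const, nsmul_eq_mul, mul_comm]
  refine mul_le_mul_of_nonneg_left (le_of_eq ?_) (Nat.cast_nonneg N)
  rw [Finset.card_eq_sum_card_fiberwise (s := D) (t := Finset.Ioo (-(N : ℤ)) N)
      (f := fun p => sg p.1 - sg p.2) (fun p hp => by
        rw [hD, Finset.mem_coe, Finset.mem_filter] at hp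
        rw [Finset.mem_coe, Finset.mem_Ioo]
        exact abs_lt.1 hp.2.2)]
  push_cast
  refine Finset.sum_congr rfl fun d hd => ?_
  congr 2
  ext p
  rw [Finset.mem_Ioo] at hd
  simp only [hD, Zd, Finset.mem_filter]
  constructor
  · rintro ⟨⟨h1, h2, h3⟩, h4⟩
    exact ⟨⟨h1, h4⟩, h2⟩
  · rintro ⟨⟨h1, h2⟩, h3⟩
    exact ⟨⟨h1, h3, by rw [h2]; exact abs_lt.2 hd⟩, h2⟩

lemma W_eq_ite (F : Finset ℕ) (N k : ℕ) : W F N k =
    ∑ p ∈ P F k ×ˢ P F k, (if (fun _ : (Fin k → ℕ) × (Fin k → ℕ) => True) p then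
      w N (sg p.1 - sg p.2) else 0) := by
  unfold W
  rw [Finset.sum_product]
  simp

lemma card_T (N : ℕ) : ((Finset.Ioo (-(N : ℤ)) N).card : ℝ) ≤ 2 * N := by
  have : (Finset.Ioo (-(N : ℤ)) N).card ≤ 2 * N := by
    rw [Int.card_Ioo]
    omega
  exact_mod_cast this

/-- the trivial upper bound -/
lemma total {K k : ℕ} {A : Set ℕ} (hK : RepLe K (2 * k) A) (F : Finset ℕ) (hF : (F : Set ℕ) ⊆ A)
    (N : ℕ) : W F N k ^ 2 ≤ 2 * K * (N : ℝ) ^ 3 * (F.card : ℝ) ^ (2 * k) := by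
  classical
  have h1 := sum_le_N F N k (fun _ => True)
  rw [← W_eq_ite] at h1
  have h0 : 0 ≤ W F N k := Pool.Agent.Helper68.ET.UP.W_nonneg F N k
  set T := Finset.Ioo (-(N : ℤ)) N with hT
  have h2 : (∑ d ∈ T, ((((Zd F k d).filter (fun _ => True)).card : ℕ) : ℝ)) ^ 2 ≤
      2 * N * (K * (F.card : ℝ) ^ (2 * k)) := by
    refine (sq_sum_le_card_mul_sum_sq).trans ?_
    refine mul_le_mul (card_T N) ?_ (Finset.sum_nonneg fun _ _ => by positivity) (by positivity)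
    have h3 := l2 hK F hF T
    have h4 : ∑ d ∈ T, ((((Zd F k d).filter (fun _ => True)).card : ℕ) : ℝ) ^ 2 =
        ((∑ d ∈ T, (Zd F k d).card ^ 2 : ℕ) : ℝ) := by
      push_cast
      refine Finset.sum_congr rfl fun d _ => ?_
      rw [Finset.filter_true_of_mem (fun _ _ => trivial)]
    rw [h4]
    exact_mod_cast h3
  calc W F N k ^ 2 ≤ (N * ∑ d ∈ T, ((((Zd F k d).filter (fun _ => True)).card : ℕ) : ℝ)) ^ 2 :=
        pow_le_pow_left₀ h0 h1 2
    _ = (N : ℝ) ^ 2 * (∑ d ∈ T, ((((Zd F k d).filter (fun _ => True)).card : ℕ) : ℝ)) ^ 2 := by ring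
    _ ≤ (N : ℝ) ^ 2 * (2 * N * (K * (F.card : ℝ) ^ (2 * k))) :=
        mul_le_mul_of_nonneg_left h2 (by positivity)
    _ = _ := by ring

/-- the popular differences of `F` -/
noncomputable def Dp (F : Finset ℕ) (k g N : ℕ) : Finset ℤ :=
  (Finset.Ioo (-(N : ℤ)) N).filter (fun d => g < (Yd F k d).card)

lemma main1 {K r g R N : ℕ} {A : Set ℕ} (hK : RepLe K (2 * (r + 1)) A) (F : Finset ℕ)
    (hF : (F : Set ℕ) ⊆ A) (hN : 1 ≤ N) (hx : ∀ a ∈ F, a < R * N)
    (hN1 : (K * (2 * (r + 1) * R + 1) : ℝ) *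
      (2 * K * (K * (2 * (r + 1) * R + 1)) + 1) ^ (2 * r) ≤ N)
    (hW : (2 * (g : ℝ) + ((r : ℝ) + 1) ^ 2 + 1) * (N : ℝ) ^ 2 ≤ W F N (r + 1)) :
    (N : ℝ) ≤ K * (K * (2 * (r + 1) * R + 1)) * (Dp F (r + 1) g N).card := by
  classical
  set M : ℝ := K * (2 * (r + 1) * R + 1) with hM
  have hM0 : 0 ≤ M := by positivity
  have hNr : (1 : ℝ) ≤ N := by exact_mod_cast hN
  have hN0 : (0 : ℝ) < N := by linarith
  have hE : (F.card : ℝ) ^ (2 * (r + 1)) ≤ M * N := by
    have h1 := sz hK F hF (R * N) hx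
    have h2 : (F.card : ℝ) ^ (2 * (r + 1)) ≤ K * (2 * (r + 1) * (R * N) + 1) := by exact_mod_cast h1
    have h3 : (2 * ((r : ℝ) + 1) * (R * N) + 1) ≤ (2 * ((r : ℝ) + 1) * R + 1) * N := by nlinarith
    calc _ ≤ _ := h2
      _ ≤ (K : ℝ) * ((2 * ((r : ℝ) + 1) * R + 1) * N) :=
          mul_le_mul_of_nonneg_left h3 (by positivity)
      _ = M * N := by rw [hM]; ring
  have hW0 : 0 ≤ W F N (r + 1) := Pool.Agent.Helper68.ET.UP.W_nonneg F N _
  have hWr0 : 0 ≤ W F N r := Pool.Agent.Helper68.ET.UP.W_nonneg F N _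
  -- (a)
  have ha : W F N (r + 1) ≤ (2 * K * M + 1) * (N : ℝ) ^ 2 := by
    have h1 := total hK F hF N
    have h2 : W F N (r + 1) ^ 2 ≤ ((2 * K * M + 1) * (N : ℝ) ^ 2) ^ 2 := by
      calc W F N (r + 1) ^ 2 ≤ 2 * K * (N : ℝ) ^ 3 * (F.card : ℝ) ^ (2 * (r + 1)) := h1
        _ ≤ 2 * K * (N : ℝ) ^ 3 * (M * N) := mul_le_mul_of_nonneg_left hE (by positivity)
        _ = (2 * K * M) * (N : ℝ) ^ 4 := by ring
        _ ≤ (2 * K * M + 1) ^ 2 * (N : ℝ) ^ 4 := by
            refine mul_le_mul_of_nonneg_right ?_ (by positivity)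
            have : 0 ≤ 2 * (K : ℝ) * M := by positivity
            nlinarith
        _ = _ := by ring
    exact le_of_pow_le_pow_left₀ (by norm_num) (by positivity) h2
  -- (b), (c)
  have hb := Pool.Agent.Helper68.ET.UP.convex CS.main F N r
  have hc : F.card * W F N r ≤ (N : ℝ) ^ 2 := by
    have h1 : (F.card * W F N r) ^ (2 * (r + 1)) ≤ ((N : ℝ) ^ 2) ^ (2 * (r + 1)) := by
      calc (F.card * W F N r) ^ (2 * (r + 1))
          = (F.card : ℝ) ^ (2 * (r + 1)) * (W F N r ^ (r + 1)) ^ 2 := by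
            rw [mul_pow]; congr 1; rw [← pow_mul]; congr 1; ring
        _ ≤ (M * N) * ((N : ℝ) * W F N (r + 1) ^ r) ^ 2 :=
            mul_le_mul hE (pow_le_pow_left₀ (by positivity) hb 2) (by positivity) (by positivity)
        _ ≤ (M * N) * ((N : ℝ) * ((2 * K * M + 1) * (N : ℝ) ^ 2) ^ r) ^ 2 := by
            refine mul_le_mul_of_nonneg_left ?_ (by positivity)
            refine pow_le_pow_left₀ (by positivity) ?_ 2
            exact mul_le_mul_of_nonneg_left (pow_le_pow_left₀ hW0 ha r) (by positivity)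
        _ = (M * (2 * K * M + 1) ^ (2 * r)) * (N : ℝ) ^ (4 * r + 3) := by
            generalize 2 * (K : ℝ) * M + 1 = c2
            ring
        _ ≤ (N : ℝ) * (N : ℝ) ^ (4 * r + 3) := mul_le_mul_of_nonneg_right hN1 (by positivity)
        _ = ((N : ℝ) ^ 2) ^ (2 * (r + 1)) := by ring
    exact le_of_pow_le_pow_left₀ (by omega) (by positivity) h1
  -- (d)
  have hsp := split F N r
  set T := Finset.Ioo (-(N : ℤ)) N with hT
  set D := Dp F (r + 1) g N with hD
  have hdis : (∑ u ∈ P F (r + 1), ∑ v ∈ P F (r + 1),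
      (if ∀ i j, u i ≠ v j then w N (sg u - sg v) else 0)) ≤
      N * ∑ d ∈ T, ((Yd F (r + 1) d).card : ℝ) := by
    rw [← Finset.sum_product']
    exact sum_le_N F N (r + 1) (fun p => ∀ i j, p.1 i ≠ p.2 j)
  have hsum : ∑ d ∈ T, ((Yd F (r + 1) d).card : ℝ) ≤ 2 * g * N +
      ∑ d ∈ D, ((Yd F (r + 1) d).card : ℝ) := by
    have h1 : ∀ d ∈ T, ((Yd F (r + 1) d).card : ℝ) ≤ g +
        (if g < (Yd F (r + 1) d).card then ((Yd F (r + 1) d).card : ℝ) else 0) := by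
      intro d _
      split_ifs with h
      · have : (0 : ℝ) ≤ g := Nat.cast_nonneg g
        linarith
      · rw [add_zero]
        exact_mod_cast not_lt.1 h
    refine (Finset.sum_le_sum h1).trans ?_
    rw [Finset.sum_add_distrib, Finset.sum_const, nsmul_eq_mul, ← Finset.sum_filter]
    have h2 : ((T.card : ℕ) : ℝ) * g ≤ 2 * g * N := by
      have := mul_le_mul_of_nonneg_right (card_T N) (Nat.cast_nonneg (α := ℝ) g)
      calc _ ≤ _ := this
        _ = _ := by ring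
    exact add_le_add h2 le_rfl
  set s := ∑ d ∈ D, ((Yd F (r + 1) d).card : ℝ) with hs
  have hs0 : 0 ≤ s := Finset.sum_nonneg fun _ _ => by positivity
  have hs2 : s ^ 2 ≤ D.card * (K * (M * N)) := by
    refine (sq_sum_le_card_mul_sum_sq).trans ?_
    refine mul_le_mul_of_nonneg_left ?_ (by positivity)
    have h3 := l2 hK F hF D
    have h4 : ∑ d ∈ D, ((Yd F (r + 1) d).card : ℝ) ^ 2 ≤
        ((∑ d ∈ D, (Zd F (r + 1) d).card ^ 2 : ℕ) : ℝ) := by
      push_cast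
      refine Finset.sum_le_sum fun d _ => pow_le_pow_left₀ (by positivity) ?_ 2
      exact_mod_cast Finset.card_filter_le _ _
    refine h4.trans ?_
    have h5 : ((∑ d ∈ D, (Zd F (r + 1) d).card ^ 2 : ℕ) : ℝ) ≤ K * (F.card : ℝ) ^ (2 * (r + 1)) := by
      exact_mod_cast h3
    exact h5.trans (mul_le_mul_of_nonneg_left hE (Nat.cast_nonneg K))
  have hNs : (N : ℝ) ≤ s := by
    have h1 : (2 * (g : ℝ) + ((r : ℝ) + 1) ^ 2 + 1) * (N : ℝ) ^ 2 ≤
        N * (2 * g * N + s) + ((r : ℝ) + 1) ^ 2 * (N : ℝ) ^ 2 := by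
      calc _ ≤ _ := hW
        _ ≤ _ := hsp
        _ ≤ _ := by
          refine add_le_add (hdis.trans (mul_le_mul_of_nonneg_left hsum hN0.le)) ?_
          rw [mul_assoc]
          exact mul_le_mul_of_nonneg_left hc (by positivity)
    have h2 : (N : ℝ) * N ≤ N * s := by nlinarith
    exact le_of_mul_le_mul_left h2 hN0
  have h6 : (N : ℝ) * N ≤ (K * M * D.card) * N := by
    calc (N : ℝ) * N ≤ s ^ 2 := by rw [pow_two]; exact mul_le_mul hNs hNs hN0.le hs0
      _ ≤ _ := hs2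
      _ = _ := by ring
  exact le_of_mul_le_mul_right h6 hN0

/-- dyadic pieces -/
lemma dyad (k : ℕ) (hk : 1 ≤ k) (S : Set ℕ) (J T' : ℕ) (F : Finset ℕ)
    (hF : ∀ a, a ∈ F ↔ a ∈ S ∧ a < 2 ^ T') :
    ((2:ℝ) ^ J) ^ 2 * ∑ j ∈ Finset.Ico J T', (nb S j : ℝ) ^ (2 * k) / 2 ^ j ≤
      2 * ((k : ℝ) + 1) * W F (2 ^ J) k := by
  have hfj : ∀ j : ℕ, (S ∩ Set.Ico (2 ^ j) (2 ^ (j + 1))).Finite := fun j =>
    (Set.finite_Ico _ _).subset Set.inter_subset_right
  have hsum : ∑ j ∈ Finset.Ico J T', W (hfj j).toFinset (2 ^ J) k ≤ W F (2 ^ J) k := by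
    simp only [DY.W_eq]
    rw [← Finset.sum_biUnion (f := fun p : (Fin k → ℕ) × (Fin k → ℕ) => w (2 ^ J) (sg p.1 - sg p.2))
      (s := Finset.Ico J T')
      (t := fun j => P (hfj j).toFinset k ×ˢ P (hfj j).toFinset k)]
    · refine Finset.sum_le_sum_of_subset_of_nonneg ?_ fun _ _ _ => OV.w_nonneg _ _
      intro p hp
      rw [Finset.mem_biUnion] at hp
      obtain ⟨j, hj, hp⟩ := hp
      rw [Finset.mem_Ico] at hj
      rw [Finset.mem_product] at hp ⊢
      simp only [P, Fintype.mem_piFinset, Set.Finite.mem_toFinset] at hp ⊢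
      have hlt : 2 ^ (j + 1) ≤ 2 ^ T' := Nat.pow_le_pow_right (by norm_num) (by omega)
      exact ⟨fun i => (hF _).2 ⟨(hp.1 i).1, lt_of_lt_of_le (hp.1 i).2.2 hlt⟩,
        fun i => (hF _).2 ⟨(hp.2 i).1, lt_of_lt_of_le (hp.2 i).2.2 hlt⟩⟩
    · intro j _ j' _ hjj'
      rw [Function.onFun, Finset.disjoint_left]
      intro p hp hp'
      rw [Finset.mem_product] at hp hp'
      simp only [P, Fintype.mem_piFinset, Set.Finite.mem_toFinset] at hp hp'
      have h1 := (hp.1 ⟨0, hk⟩).2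
      have h2 := (hp'.1 ⟨0, hk⟩).2
      rw [Set.mem_Ico] at h1 h2
      rcases Nat.lt_or_gt_of_ne hjj' with h | h
      · have : 2 ^ (j + 1) ≤ 2 ^ j' := Nat.pow_le_pow_right (by norm_num) h
        omega
      · have : 2 ^ (j' + 1) ≤ 2 ^ j := Nat.pow_le_pow_right (by norm_num) h
        omega
  have hlow : ∀ j ∈ Finset.Ico J T', ((2:ℝ) ^ J) ^ 2 * ((nb S j : ℝ) ^ (2 * k) / 2 ^ j) ≤
      2 * ((k : ℝ) + 1) * W (hfj j).toFinset (2 ^ J) k := by
    intro j hj
    rw [Finset.mem_Ico] at hj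
    have h1 := Pool.Agent.Helper10.ET.LOW.main (hfj j).toFinset (2 ^ J) k (2 ^ (j + 1)) hk
      (fun a ha => by
        rw [Set.Finite.mem_toFinset] at ha
        exact ha.2.2) (Nat.pow_le_pow_right (by norm_num) (by omega))
    have h2 : ((hfj j).toFinset.card : ℝ) = (nb S j : ℝ) := by
      unfold nb
      rw [Set.ncard_eq_toFinset_card _ (hfj j)]
    rw [h2] at h1
    push_cast at h1
    rw [← mul_div_assoc, div_le_iff₀ (by positivity)]
    calc ((2:ℝ) ^ J) ^ 2 * (nb S j : ℝ) ^ (2 * k) = (2 ^ J * (nb S j : ℝ) ^ k) ^ 2 := by ring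
      _ ≤ _ := h1
      _ = _ := by ring
  calc ((2:ℝ) ^ J) ^ 2 * ∑ j ∈ Finset.Ico J T', (nb S j : ℝ) ^ (2 * k) / 2 ^ j
      = ∑ j ∈ Finset.Ico J T', ((2:ℝ) ^ J) ^ 2 * ((nb S j : ℝ) ^ (2 * k) / 2 ^ j) := by
        rw [Finset.mul_sum]
    _ ≤ ∑ j ∈ Finset.Ico J T', 2 * ((k : ℝ) + 1) * W (hfj j).toFinset (2 ^ J) k :=
        Finset.sum_le_sum hlow
    _ = 2 * ((k : ℝ) + 1) * ∑ j ∈ Finset.Ico J T', W (hfj j).toFinset (2 ^ J) k := by
        rw [Finset.mul_sum]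
    _ ≤ 2 * ((k : ℝ) + 1) * W F (2 ^ J) k := mul_le_mul_of_nonneg_left hsum (by positivity)

lemma popSet_finite (S : Set ℕ) (k g N : ℕ) : (PopSet S k g N).Finite := by
  refine (Set.finite_Ioo (-(N : ℤ)) N).subset ?_
  rintro d ⟨h, _⟩
  exact abs_lt.1 h

lemma Dp_le (S : Set ℕ) (k g N N' : ℕ) (hN : N' ≤ N) (F : Finset ℕ) (hF : ∀ a ∈ F, a ∈ S) :
    (Dp F k g N').card ≤ (PopSet S k g N).ncard := by
  rw [← Set.ncard_coe_finset]
  refine Set.ncard_le_ncard ?_ (popSet_finite S k g N)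
  intro d hd
  rw [Finset.mem_coe, Dp, Finset.mem_filter, Finset.mem_Ioo] at hd
  obtain ⟨⟨h1, h2⟩, h3⟩ := hd
  refine ⟨abs_lt.2 ⟨by omega, by omega⟩, ?_⟩
  have h4 : ((Yd F k d : Finset ((Fin k → ℕ) × (Fin k → ℕ))) :
      Set ((Fin k → ℕ) × (Fin k → ℕ))) ⊆
      {p : (Fin k → ℕ) × (Fin k → ℕ) | (∀ i, p.1 i ∈ S) ∧ (∀ i, p.2 i ∈ S) ∧
        (∀ i j, p.1 i ≠ p.2 j) ∧ (∑ i, (p.1 i : ℤ)) - ∑ i, (p.2 i : ℤ) = d} := by
    intro p hp
    rw [Finset.mem_coe, Yd, Finset.mem_filter, Zd, Finset.mem_filter, Finset.mem_product] at hp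
    simp only [P, Fintype.mem_piFinset] at hp
    exact ⟨fun i => hF _ (hp.1.1.1 i), fun i => hF _ (hp.1.1.2 i), hp.2, hp.1.2⟩
  refine lt_of_lt_of_le ?_ (Set.encard_le_encard h4)
  rw [Set.encard_coe_eq_coe_finsetCard]
  exact_mod_cast h3

theorem popular (k : ℕ) (hk : 1 ≤ k) (K g m : ℕ) : ∃ c : ℝ, 0 < c ∧ ∀ n0 : ℕ, ∃ N0 : ℕ,
    ∀ A : Set ℕ, RepLe K (2 * k) A →
    (∀ n, n0 ≤ n → ∃ u : Fin (2 * k) → ℕ, (∀ i, u i ∈ A) ∧ ∑ i, u i = n) →
    ∀ B : Fin m → Set ℕ, A ⊆ ⋃ i, B i → ∀ N, N0 ≤ N →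
      ∃ i, c * N ≤ ((PopSet (A ∩ B i) k g N).ncard : ℝ) := by
  classical
  obtain ⟨r, rfl⟩ : ∃ r, k = r + 1 := ⟨k - 1, by omega⟩
  set U : ℝ := K * (2 * (r + 1) + 1) with hU
  obtain ⟨q, hq⟩ : ∃ q : ℕ, (2 : ℝ) ^ (2 * (r + 1)) * U ≤ 1 / 2 * 2 ^ q := by
    obtain ⟨q, hq⟩ := pow_unbounded_of_one_lt
      ((2 : ℝ) ^ (2 * (r + 1)) * U / (1 / 2)) (by norm_num : (1:ℝ) < 2)
    refine ⟨q, ?_⟩
    rw [div_lt_iff₀ (by norm_num)] at hq
    linarith
  set δ : ℝ := 1 / 2 / (2 * ((q : ℝ) + 1)) ^ (2 * (r + 1)) with hδ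
  have hδ0 : 0 < δ := by positivity
  set V : ℝ := 2 * (g : ℝ) + ((r : ℝ) + 1) ^ 2 + 1 with hV
  obtain ⟨t, ht⟩ := exists_nat_gt ((m : ℝ) ^ (2 * (r + 1)) *
    (m * (2 * (((r + 1 : ℕ) : ℝ) + 1) * V)) / δ)
  rw [div_lt_iff₀ hδ0] at ht
  set R : ℕ := 2 ^ (t * (q + 1)) with hR
  set M : ℕ := K * (2 * (r + 1) * R + 1) with hM
  have hMr : (M : ℝ) = K * (2 * (r + 1) * R + 1) := by rw [hM]; push_cast; ring
  refine ⟨1 / (2 * (K * M + 1)), by positivity, fun n0 => ?_⟩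
  set J0 : ℕ := 2 * n0 + M * (2 * K * M + 1) ^ (2 * r) with hJ0
  refine ⟨2 ^ J0, fun A hK hA B hAB N hN => ?_⟩
  have hNpos : N ≠ 0 := by
    have : 0 < 2 ^ J0 := by positivity
    omega
  set J : ℕ := Nat.log 2 N with hJ
  have hJ1 : 2 ^ J ≤ N := Nat.pow_log_le_self 2 hNpos
  have hJ2 : N < 2 ^ (J + 1) := Nat.lt_pow_succ_log_self (by norm_num) N
  have hJ3 : J0 ≤ J := by
    rw [hJ]
    exact (Nat.le_log_iff_pow_le (by norm_num) hNpos).2 hN
  by_contra hcon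
  push Not at hcon
  -- the bound for every colour
  have hfin : ∀ i, ((A ∩ B i) ∩ Set.Iio (R * 2 ^ J)).Finite := fun i =>
    (Set.finite_Iio _).subset Set.inter_subset_right
  have hcol : ∀ i, W (hfin i).toFinset (2 ^ J) (r + 1) ≤ V * ((2:ℝ) ^ J) ^ 2 := by
    intro i
    by_contra hlt
    push Not at hlt
    have h1 := main1 (g := g) (R := R) (N := 2 ^ J) hK (hfin i).toFinset (fun a ha => by
        rw [Set.Finite.coe_toFinset] at ha
        exact ha.1.1) Nat.one_le_two_pow (fun a ha => by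
        rw [Set.Finite.mem_toFinset] at ha
        exact ha.2) (by
        rw [← hMr]
        have h2 : M * (2 * K * M + 1) ^ (2 * r) ≤ 2 ^ J := by
          have : J < 2 ^ J := Nat.lt_two_pow_self
          omega
        exact_mod_cast h2) (by push_cast; exact hlt.le)
    rw [← hMr] at h1
    have h2 := Dp_le (A ∩ B i) (r + 1) g N (2 ^ J) hJ1 (hfin i).toFinset (fun a ha => by
        rw [Set.Finite.mem_toFinset] at ha
        exact ha.1)
    have h3 := hcon i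
    have h4 : ((Dp (hfin i).toFinset (r + 1) g (2 ^ J)).card : ℝ) <
        1 / (2 * (K * M + 1)) * N := lt_of_le_of_lt (by exact_mod_cast h2) h3
    have h5 : (N : ℝ) < 2 * 2 ^ J := by
      have : (N : ℝ) < ((2 ^ (J + 1) : ℕ) : ℝ) := by exact_mod_cast hJ2
      push_cast at this
      rw [pow_succ] at this
      linarith
    push_cast at h1
    have h6 : (0:ℝ) < 2 ^ J := by positivity
    have h7 : (0:ℝ) ≤ K * M := by positivity
    have h8 : ((Dp (hfin i).toFinset (r + 1) g (2 ^ J)).card : ℝ) * (K * M + 1) < 2 ^ J := by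
      calc ((Dp (hfin i).toFinset (r + 1) g (2 ^ J)).card : ℝ) * (K * M + 1)
          < (1 / (2 * (K * M + 1)) * N) * (K * M + 1) :=
            mul_lt_mul_of_pos_right h4 (by positivity)
        _ = N / 2 := by field_simp
        _ < 2 ^ J := by linarith
    have h9 : (0:ℝ) ≤ (Dp (hfin i).toFinset (r + 1) g (2 ^ J)).card := Nat.cast_nonneg _
    nlinarith
  -- lower bound
  have hlo : ∀ x : ℕ, 2 * n0 ≤ x → 1 / 2 * (x : ℝ) ≤
      ((A ∩ Set.Iio x).ncard : ℝ) ^ (2 * (r + 1)) := fun x hx =>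
    Gen.basis_count (r + 1) n0 x A (fun n hn _ => hA n hn) x hx le_rfl
  have hup : ∀ x : ℕ, 1 ≤ x → ((A ∩ Set.Iio x).ncard : ℝ) ^ (2 * (r + 1)) ≤ U * x := by
    intro x hx
    have hf : (A ∩ Set.Iio x).Finite := (Set.finite_Iio x).subset Set.inter_subset_right
    have h1 := sz hK hf.toFinset (by
      rw [Set.Finite.coe_toFinset]
      exact Set.inter_subset_left) x (fun a ha => by
      rw [Set.Finite.mem_toFinset] at ha
      exact ha.2)
    rw [← Set.ncard_eq_toFinset_card _ hf] at h1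
    have h2 : ((A ∩ Set.Iio x).ncard : ℝ) ^ (2 * (r + 1)) ≤ K * (2 * (r + 1) * x + 1) := by
      exact_mod_cast h1
    have h3 : (1:ℝ) ≤ x := by exact_mod_cast hx
    have h4 : (2 * ((r : ℝ) + 1) * x + 1) ≤ (2 * (r + 1) + 1) * x := by nlinarith
    calc _ ≤ _ := h2
      _ ≤ (K : ℝ) * ((2 * (r + 1) + 1) * x) := mul_le_mul_of_nonneg_left h4 (by positivity)
      _ = _ := by rw [hU]; ring
  have hbl := blocks (r + 1) hk A (1 / 2) U (by norm_num) (2 * n0) q hq hlo hup J t (by omega)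
  have hdy : ∀ i, ∑ j ∈ Finset.Ico J (J + t * (q + 1)),
      (nb (A ∩ B i) j : ℝ) ^ (2 * (r + 1)) / 2 ^ j ≤ 2 * (((r + 1 : ℕ) : ℝ) + 1) * V := by
    intro i
    have h1 := dyad (r + 1) hk (A ∩ B i) J (J + t * (q + 1)) (hfin i).toFinset (fun a => by
      rw [Set.Finite.mem_toFinset, Set.mem_inter_iff, Set.mem_Iio, pow_add, hR, mul_comm])
    have h2 := hcol i
    have h3 : (0:ℝ) < ((2:ℝ) ^ J) ^ 2 := by positivity
    have h4 : ((2:ℝ) ^ J) ^ 2 * ∑ j ∈ Finset.Ico J (J + t * (q + 1)),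
        (nb (A ∩ B i) j : ℝ) ^ (2 * (r + 1)) / 2 ^ j ≤
        ((2:ℝ) ^ J) ^ 2 * (2 * (((r + 1 : ℕ) : ℝ) + 1) * V) := by
      calc _ ≤ _ := h1
        _ ≤ 2 * (((r + 1 : ℕ) : ℝ) + 1) * (V * ((2:ℝ) ^ J) ^ 2) :=
            mul_le_mul_of_nonneg_left h2 (by positivity)
        _ = _ := by ring
    exact le_of_mul_le_mul_left h4 h3
  have hAB' : A ⊆ ⋃ i, (A ∩ B i) := by
    intro a ha
    obtain ⟨i, hi⟩ := Set.mem_iUnion.1 (hAB ha)
    exact Set.mem_iUnion.2 ⟨i, ha, hi⟩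
  have hupper : ∑ j ∈ Finset.Ico J (J + t * (q + 1)), (nb A j : ℝ) ^ (2 * (r + 1)) / 2 ^ j ≤
      (m : ℝ) ^ (2 * (r + 1)) * (m * (2 * (((r + 1 : ℕ) : ℝ) + 1) * V)) := by
    have h1 : ∀ j, (nb A j : ℝ) ^ (2 * (r + 1)) / 2 ^ j ≤
        (m : ℝ) ^ (2 * (r + 1)) * ∑ l : Fin m, (nb (A ∩ B l) j : ℝ) ^ (2 * (r + 1)) / 2 ^ j := by
      intro j
      have h2 : (nb A j : ℝ) ≤ ∑ l : Fin m, (nb (A ∩ B l) j : ℝ) :=
        Gen.ncard_union_le A (fun l => A ∩ B l) hAB' _ (Set.finite_Ico _ _)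
      rw [← Finset.sum_div, ← mul_div_assoc]
      refine div_le_div_of_nonneg_right ?_ (by positivity)
      refine (pow_le_pow_left₀ (by positivity) h2 _).trans ?_
      exact Gen.powsum (r + 1) hk _ fun i => by positivity
    calc ∑ j ∈ Finset.Ico J (J + t * (q + 1)), (nb A j : ℝ) ^ (2 * (r + 1)) / 2 ^ j
        ≤ ∑ j ∈ Finset.Ico J (J + t * (q + 1)), (m : ℝ) ^ (2 * (r + 1)) *
            ∑ l : Fin m, (nb (A ∩ B l) j : ℝ) ^ (2 * (r + 1)) / 2 ^ j :=
          Finset.sum_le_sum fun j _ => h1 j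
      _ = (m : ℝ) ^ (2 * (r + 1)) * ∑ l : Fin m, ∑ j ∈ Finset.Ico J (J + t * (q + 1)),
          (nb (A ∩ B l) j : ℝ) ^ (2 * (r + 1)) / 2 ^ j := by
          rw [← Finset.mul_sum, Finset.sum_comm]
      _ ≤ (m : ℝ) ^ (2 * (r + 1)) * ∑ l : Fin m, 2 * (((r + 1 : ℕ) : ℝ) + 1) * V :=
          mul_le_mul_of_nonneg_left (Finset.sum_le_sum fun l _ => hdy l) (by positivity)
      _ = _ := by simp
  rw [← hδ] at hbl
  linarith

end Pool.Agent.Helper12.ET.Pop
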